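import Pool.Agent.Helper84.MRDP.NormalForm

set_option autoImplicit false

/-!
# One fixed system of elementary equations with an undecidable parameter

`exists_system`: there is a fixed list `E` of equations `y i + y j = y k`, `y j = y i ^ 2` in the
unknowns `y 0, …, y (m-1)` such that for the systems `E ∧ y 1 = a * y 0` (parameter `a`)
* the zero vector is a solution,
* in every solution `y 0 ∈ {0, 1}`, and `y 0 = 0` only for the zero vector,
* it is undecidable (but r.e.) whether there is a nonzero solution.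
-/

namespace Pool.Agent.Helper84.MRDP

/-- a r.e. predicate on `ℕ` which is not computable -/
theorem exists_re_not_computable : ∃ p : ℕ → Prop, REPred p ∧ ¬ ComputablePred p := by
  let K : Nat.Partrec.Code → Prop := fun c => (Nat.Partrec.Code.eval c 0).Dom
  have hK : REPred K := ComputablePred.halting_problem_re 0
  have hK' : ¬ ComputablePred K := ComputablePred.halting_problem 0
  let e : Nat.Partrec.Code ≃ ℕ := Denumerable.eqv _
  refine ⟨fun n => K (e.symm n), ?_, ?_⟩
  · have h1 : Computable (fun n : ℕ => (e.symm n)) := (Computable.ofNat Nat.Partrec.Code)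
    have := hK
    exact Partrec.comp this h1
  · intro h
    apply hK'
    have h1 : Computable (fun c : Nat.Partrec.Code => e c) := Computable.encode
    have := ComputablePred.computable_iff.1 h
    obtain ⟨f, hf, hf2⟩ := this
    rw [ComputablePred.computable_iff]
    refine ⟨fun c => f (e c), hf.comp h1, ?_⟩
    funext c
    have := congrFun hf2 (e c)
    simp only [Equiv.symm_apply_apply] at this
    exact this

/-- One fixed system with an undecidable parameter. -/
theorem exists_system : ∃ (m : ℕ) (E : List Eq2), 2 ≤ m ∧ (∀ e ∈ E, e.Below m) ∧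
    (∀ y : ℕ → ℕ, (∀ e ∈ E, e.Holds y) → y 0 = 0 ∨ y 0 = 1) ∧
    (∀ (a : ℕ) (y : ℕ → ℕ), (∀ e ∈ E, e.Holds y) → y 1 = a * y 0 → y 0 = 0 →
      ∀ i < m, y i = 0) ∧
    ¬ ComputablePred fun a : ℕ =>
      ∃ y : ℕ → ℕ, (∀ e ∈ E, e.Holds y) ∧ y 0 = 1 ∧ y 1 = a * y 0 := by
  obtain ⟨p, hp, hp'⟩ := exists_re_not_computable
  obtain ⟨m, E, h1, h2, h3, h4, h5⟩ := mrdp_switch hp
  refine ⟨m, E, h1, h2, h3, h4, fun h => hp' ?_⟩
  have : p = fun a : ℕ => ∃ y : ℕ → ℕ, (∀ e ∈ E, e.Holds y) ∧ y 0 = 1 ∧ y 1 = a * y 0 :=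
    funext fun a => propext (h5 a)
  rw [this]
  exact h

end Pool.Agent.Helper84.MRDP
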