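import Pool.Agent.Helper84.MRDP.Large

set_option autoImplicit false

/-!
# A normal form in which all unknowns may be taken large, part 2
-/

namespace Pool.Agent.Helper84.MRDP

open Dioph

theorem below_all {N N' : ℕ} {E : List Eq2} (h : ∀ e ∈ E, e.Below N) (hN : N ≤ N') :
    ∀ e ∈ E, e.Below N' := fun e he => (h e he).mono hN

theorem holds_all_congr {m : ℕ} {E : List Eq2} (hE : ∀ e ∈ E, e.Below m) {y y' : ℕ → ℕ}
    (h : ∀ i < m, y' i = y i) (hy : ∀ e ∈ E, e.Holds y) : ∀ e ∈ E, e.Holds y' := fun e he =>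
  (Eq2.holds_congr (hE e he) fun i hi => (h i hi).symm).1 (hy e he)

/-- Compilation of an expression in the coding `v ↦ y 0 * (v + 5)`. -/
theorem exists_coded {γ : Type} (P : NE γ) : ∀ {N : ℕ} (idx : γ → ℕ), 0 < N →
    (∀ i ∈ P.vars, idx i < N) →
    ∃ (N' : ℕ) (E : List Eq2) (o : ℕ), N ≤ N' ∧ o < N' ∧ (∀ e ∈ E, e.Below N') ∧
      (∀ (x : γ → ℕ) (y : ℕ → ℕ), (∀ e ∈ E, e.Holds y) → 1 ≤ y 0 →
        (∀ i ∈ P.vars, y (idx i) = y 0 * (x i + 5)) → y o = y 0 * (P.eval x + 5)) ∧
      (∀ (x : γ → ℕ) (y : ℕ → ℕ), 1 ≤ y 0 → (∀ i ∈ P.vars, y (idx i) = y 0 * (x i + 5)) →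
        ∃ y' : ℕ → ℕ, (∀ i < N, y' i = y i) ∧ ∀ e ∈ E, e.Holds y') ∧
      (∀ (x : γ → ℕ) (B : ℕ), 1 ≤ B → ∀ y : ℕ → ℕ, (∀ e ∈ E, e.Holds y) →
        (∀ i ∈ P.vars, y (idx i) = y 0 * (x i + 5)) → (∀ i < N, B ≤ y i) →
        ∀ i < N', B ≤ y i) := by
  induction P with
  | var i =>
    intro N idx hN h
    refine ⟨N, [], idx i, le_rfl, h i (by simp [NE.vars]), fun e he => absurd he List.not_mem_nil,
      ?_, ?_, ?_⟩
    · intro x y _ _ hx
      exact hx i (by simp [NE.vars])
    · intro x y _ _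
      exact ⟨y, fun _ _ => rfl, fun e he => absurd he List.not_mem_nil⟩
    · intro x B _ y _ _ h
      exact h
  | const n =>
    intro N idx hN _
    obtain ⟨N1, E1, o1, h1, b1⟩ := bblk_const hN (n + 4)
    refine ⟨N1, E1, o1, h1.le, h1.out_lt, h1.below, ?_, ?_, ?_⟩
    · intro x y hy _ _
      rw [h1.sound y hy]
      show (n + 4 + 1) * y 0 = y 0 * (n * 1 + 5)
      ring
    · intro x y _ _
      exact h1.compl y
    · intro x B hB y hy _ h
      exact b1 B hB y hy h
  | add P Q ihP ihQ =>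
    intro N idx hN h
    obtain ⟨N1, E1, o1, p1, p2, p3, p4, p5, p6⟩ := ihP idx hN fun i hi => h i (by simp [NE.vars, hi])
    obtain ⟨N2, E2, o2, q1, q2, q3, q4, q5, q6⟩ := ihQ idx (lt_of_lt_of_le hN p1)
      fun i hi => lt_of_lt_of_le (h i (by simp [NE.vars, hi])) p1
    -- the free variable `N2`
    obtain ⟨N3, E3, r1, r2, r3, r4, r5⟩ := exists_teq (.add (.var N2) (.mc 4))
      (.add (.var o1) (.var o2)) (N := N2 + 1) (Nat.succ_pos _)
      ⟨Nat.lt_succ_self _, trivial⟩ ⟨show o1 < N2 + 1 by omega, show o2 < N2 + 1 by omega⟩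
    have hsound : ∀ (x : γ → ℕ) (y : ℕ → ℕ), (∀ e ∈ (E1 ++ E2) ++ E3, e.Holds y) → 1 ≤ y 0 →
        (∀ i ∈ (NE.add P Q).vars, y (idx i) = y 0 * (x i + 5)) →
        y N2 = y 0 * ((NE.add P Q).eval x + 5) := by
      intro x y hy hy0 hx
      have e1 := p4 x y (fun e he => hy e (by simp [he])) hy0 fun i hi => hx i (by simp [NE.vars, hi])
      have e2 := q4 x y (fun e he => hy e (by simp [he])) hy0 fun i hi => hx i (by simp [NE.vars, hi])
      have e3 : y N2 + (4 + 1) * y 0 = y o1 + y o2 := r3 y fun e he => hy e (by simp [he])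
      show y N2 = y 0 * (P.eval x + Q.eval x + 5)
      rw [e1, e2] at e3
      nlinarith
    refine ⟨N3, (E1 ++ E2) ++ E3, N2, by omega, by omega, ?_, hsound, ?_, ?_⟩
    · intro e he
      rcases List.mem_append.1 he with he | he
      · rcases List.mem_append.1 he with he | he
        · exact (p3 e he).mono (by omega)
        · exact (q3 e he).mono (by omega)
      · exact r2 e he
    · intro x y hy0 hx
      obtain ⟨y1, a1, b1⟩ := p5 x y hy0 fun i hi => hx i (by simp [NE.vars, hi])
      obtain ⟨y2, a2, b2⟩ := q5 x y1 (by rw [a1 0 hN]; exact hy0) fun i hi => by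
        rw [a1 _ (h i (by simp [NE.vars, hi])), a1 0 hN]
        exact hx i (by simp [NE.vars, hi])
      have e2N : ∀ i < N, y2 i = y i := fun i hi => (a2 i (by omega)).trans (a1 i hi)
      let y3 : ℕ → ℕ := fun n => if n = N2 then y2 0 * (P.eval x + Q.eval x + 5) else y2 n
      have e32 : ∀ i < N2, y3 i = y2 i := fun i hi => by simp only [y3, show i ≠ N2 by omega, if_false]
      have hb1 : ∀ e ∈ E1, e.Holds y3 := holds_all_congr p3
        (fun i hi => (e32 i (by omega)).trans (a2 i hi)) b1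
      have hb2 : ∀ e ∈ E2, e.Holds y3 := holds_all_congr q3 (fun i hi => e32 i hi) b2
      have h30 : y3 0 = y 0 := (e32 0 (by omega)).trans (e2N 0 hN)
      have h3N : ∀ i < N, y3 i = y i := fun i hi => (e32 i (by omega)).trans (e2N i hi)
      have e1 := p4 x y3 hb1 (by rw [h30]; exact hy0) fun i hi => by
        rw [h3N _ (h i (by simp [NE.vars, hi])), h30]; exact hx i (by simp [NE.vars, hi])
      have e2 := q4 x y3 hb2 (by rw [h30]; exact hy0) fun i hi => by
        rw [h3N _ (h i (by simp [NE.vars, hi])), h30]; exact hx i (by simp [NE.vars, hi])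
      have e3 : y3 N2 = y3 0 * (P.eval x + Q.eval x + 5) := by
        rw [h30]; simp only [y3, if_true]; rw [e2N 0 hN]
      obtain ⟨y4, a4, b4⟩ := r4 y3 (by
        show y3 N2 + (4 + 1) * y3 0 = y3 o1 + y3 o2
        rw [e1, e2, e3]; ring)
      refine ⟨y4, fun i hi => (a4 i (by omega)).trans (h3N i hi), fun e he => ?_⟩
      rcases List.mem_append.1 he with he | he
      · rcases List.mem_append.1 he with he | he
        · exact holds_all_congr p3 (fun i hi => a4 i (by omega)) hb1 e he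
        · exact holds_all_congr q3 (fun i hi => a4 i (by omega)) hb2 e he
      · exact b4 e he
    · intro x B hB y hy hx hN'
      have b1 := p6 x B hB y (fun e he => hy e (by simp [he]))
        (fun i hi => hx i (by simp [NE.vars, hi])) hN'
      have b2 := q6 x B hB y (fun e he => hy e (by simp [he]))
        (fun i hi => hx i (by simp [NE.vars, hi])) b1
      have hy0 : B ≤ y 0 := hN' 0 hN
      refine r5 B hB y (fun e he => hy e (by simp [he])) fun i hi => ?_
      rcases Nat.lt_or_ge i N2 with hlt | hge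
      · exact b2 i hlt
      · have : i = N2 := by omega
        subst this
        rw [hsound x y hy (by omega) hx]
        exact hy0.trans (Nat.le_mul_of_pos_right _ (by omega))
  | mul P Q ihP ihQ =>
    intro N idx hN h
    obtain ⟨N1, E1, o1, p1, p2, p3, p4, p5, p6⟩ := ihP idx hN fun i hi => h i (by simp [NE.vars, hi])
    obtain ⟨N2, E2, o2, q1, q2, q3, q4, q5, q6⟩ := ihQ idx (lt_of_lt_of_le hN p1)
      fun i hi => lt_of_lt_of_le (h i (by simp [NE.vars, hi])) p1
    -- the free variable `N2`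
    let five : PT → PT := fun t => .add t (.add t (.add t (.add t t)))
    obtain ⟨N3, E3, r1, r2, r3, r4, r5⟩ := exists_teq
      (.mul (.var 0) (.add (.var N2) (.add (five (.var o1)) (five (.var o2)))))
      (.add (.mul (.var o1) (.var o2)) (.mul (.mc 29) (.var 0))) (N := N2 + 1) (Nat.succ_pos _)
      (by
        have a1 : o1 < N2 + 1 := by omega
        have a2 : o2 < N2 + 1 := by omega
        exact ⟨Nat.succ_pos _, Nat.lt_succ_self _, ⟨a1, a1, a1, a1, a1⟩, a2, a2, a2, a2, a2⟩)
      (by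
        have a1 : o1 < N2 + 1 := by omega
        have a2 : o2 < N2 + 1 := by omega
        exact ⟨⟨a1, a2⟩, trivial, Nat.succ_pos _⟩)
    have hsound : ∀ (x : γ → ℕ) (y : ℕ → ℕ), (∀ e ∈ (E1 ++ E2) ++ E3, e.Holds y) → 1 ≤ y 0 →
        (∀ i ∈ (NE.mul P Q).vars, y (idx i) = y 0 * (x i + 5)) →
        y N2 = y 0 * ((NE.mul P Q).eval x + 5) := by
      intro x y hy hy0 hx
      have e1 := p4 x y (fun e he => hy e (by simp [he])) hy0 fun i hi => hx i (by simp [NE.vars, hi])
      have e2 := q4 x y (fun e he => hy e (by simp [he])) hy0 fun i hi => hx i (by simp [NE.vars, hi])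
      have e3 : y 0 * (y N2 + ((y o1 + (y o1 + (y o1 + (y o1 + y o1)))) +
          (y o2 + (y o2 + (y o2 + (y o2 + y o2)))))) = y o1 * y o2 + ((29 + 1) * y 0) * y 0 :=
        r3 y fun e he => hy e (by simp [he])
      show y N2 = y 0 * (P.eval x * Q.eval x + 5)
      rw [e1, e2] at e3
      have e4 : y 0 * y N2 = y 0 * (y 0 * (P.eval x * Q.eval x + 5)) := by nlinarith
      exact Nat.eq_of_mul_eq_mul_left (by omega) e4
    refine ⟨N3, (E1 ++ E2) ++ E3, N2, by omega, by omega, ?_, hsound, ?_, ?_⟩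
    · intro e he
      rcases List.mem_append.1 he with he | he
      · rcases List.mem_append.1 he with he | he
        · exact (p3 e he).mono (by omega)
        · exact (q3 e he).mono (by omega)
      · exact r2 e he
    · intro x y hy0 hx
      obtain ⟨y1, a1, b1⟩ := p5 x y hy0 fun i hi => hx i (by simp [NE.vars, hi])
      obtain ⟨y2, a2, b2⟩ := q5 x y1 (by rw [a1 0 hN]; exact hy0) fun i hi => by
        rw [a1 _ (h i (by simp [NE.vars, hi])), a1 0 hN]
        exact hx i (by simp [NE.vars, hi])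
      have e2N : ∀ i < N, y2 i = y i := fun i hi => (a2 i (by omega)).trans (a1 i hi)
      let y3 : ℕ → ℕ := fun n => if n = N2 then y2 0 * (P.eval x * Q.eval x + 5) else y2 n
      have e32 : ∀ i < N2, y3 i = y2 i := fun i hi => by simp only [y3, show i ≠ N2 by omega, if_false]
      have hb1 : ∀ e ∈ E1, e.Holds y3 := holds_all_congr p3
        (fun i hi => (e32 i (by omega)).trans (a2 i hi)) b1
      have hb2 : ∀ e ∈ E2, e.Holds y3 := holds_all_congr q3 (fun i hi => e32 i hi) b2
      have h30 : y3 0 = y 0 := (e32 0 (by omega)).trans (e2N 0 hN)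
      have h3N : ∀ i < N, y3 i = y i := fun i hi => (e32 i (by omega)).trans (e2N i hi)
      have e1 := p4 x y3 hb1 (by rw [h30]; exact hy0) fun i hi => by
        rw [h3N _ (h i (by simp [NE.vars, hi])), h30]; exact hx i (by simp [NE.vars, hi])
      have e2 := q4 x y3 hb2 (by rw [h30]; exact hy0) fun i hi => by
        rw [h3N _ (h i (by simp [NE.vars, hi])), h30]; exact hx i (by simp [NE.vars, hi])
      have e3 : y3 N2 = y3 0 * (P.eval x * Q.eval x + 5) := by
        rw [h30]; simp only [y3, if_true]; rw [e2N 0 hN]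
      obtain ⟨y4, a4, b4⟩ := r4 y3 (by
        show y3 0 * (y3 N2 + ((y3 o1 + (y3 o1 + (y3 o1 + (y3 o1 + y3 o1)))) +
          (y3 o2 + (y3 o2 + (y3 o2 + (y3 o2 + y3 o2)))))) = y3 o1 * y3 o2 + ((29 + 1) * y3 0) * y3 0
        rw [e1, e2, e3]; ring)
      refine ⟨y4, fun i hi => (a4 i (by omega)).trans (h3N i hi), fun e he => ?_⟩
      rcases List.mem_append.1 he with he | he
      · rcases List.mem_append.1 he with he | he
        · exact holds_all_congr p3 (fun i hi => a4 i (by omega)) hb1 e he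
        · exact holds_all_congr q3 (fun i hi => a4 i (by omega)) hb2 e he
      · exact b4 e he
    · intro x B hB y hy hx hN'
      have b1 := p6 x B hB y (fun e he => hy e (by simp [he]))
        (fun i hi => hx i (by simp [NE.vars, hi])) hN'
      have b2 := q6 x B hB y (fun e he => hy e (by simp [he]))
        (fun i hi => hx i (by simp [NE.vars, hi])) b1
      have hy0 : B ≤ y 0 := hN' 0 hN
      refine r5 B hB y (fun e he => hy e (by simp [he])) fun i hi => ?_
      rcases Nat.lt_or_ge i N2 with hlt | hge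
      · exact b2 i hlt
      · have : i = N2 := by omega
        subst this
        rw [hsound x y hy (by omega) hx]
        exact hy0.trans (Nat.le_mul_of_pos_right _ (by omega))

/-- codes of the variables below `M` -/
theorem exists_codes (M : ℕ) : ∀ {N : ℕ}, 0 < N → M ≤ N →
    ∃ (N' : ℕ) (E : List Eq2) (o : ℕ → ℕ), N ≤ N' ∧ (∀ i < M, o i < N') ∧ (∀ e ∈ E, e.Below N') ∧
      (∀ y : ℕ → ℕ, (∀ e ∈ E, e.Holds y) → ∀ i < M, y (o i) = y 0 * (y i + 5)) ∧
      (∀ y : ℕ → ℕ, ∃ y' : ℕ → ℕ, (∀ i < N, y' i = y i) ∧ ∀ e ∈ E, e.Holds y') ∧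
      Big N N' E := by
  induction M with
  | zero =>
    intro N hN _
    exact ⟨N, [], fun _ => 0, le_rfl, fun i hi => absurd hi (Nat.not_lt_zero _),
      fun e he => absurd he List.not_mem_nil, fun y _ i hi => absurd hi (Nat.not_lt_zero _),
      fun y => ⟨y, fun _ _ => rfl, fun e he => absurd he List.not_mem_nil⟩, big_nil⟩
  | succ M ih =>
    intro N hN hM
    obtain ⟨N1, E1, o1, p1, p2, p3, p4, p5, p6⟩ := ih hN (by omega)
    obtain ⟨N2, E2, o2, h2, b2⟩ := bblk_term (.add (.mul (.var 0) (.var M)) (.mc 4)) (N := N1)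
      (by omega) ⟨⟨show 0 < N1 by omega, show M < N1 by omega⟩, trivial⟩
    refine ⟨N2, E1 ++ E2, fun i => if i = M then o2 else o1 i, p1.trans h2.le, ?_, ?_, ?_, ?_,
      big_seq p6 b2⟩
    · intro i hi
      show (if i = M then o2 else o1 i) < N2
      split_ifs with h
      · exact h2.out_lt
      · exact lt_of_lt_of_le (p2 i (by omega)) h2.le
    · intro e he
      rcases List.mem_append.1 he with he | he
      · exact (p3 e he).mono h2.le
      · exact h2.below e he
    · intro y hy i hi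
      show y (if i = M then o2 else o1 i) = _
      split_ifs with h
      · subst h
        rw [h2.sound y fun e he => hy e (by simp [he])]
        show y 0 * y i + (4 + 1) * y 0 = y 0 * (y i + 5)
        ring
      · exact p4 y (fun e he => hy e (by simp [he])) i (by omega)
    · intro y
      obtain ⟨y1, a1, b1⟩ := p5 y
      obtain ⟨y2, a2, b2⟩ := h2.compl y1
      refine ⟨y2, fun i hi => (a2 i (by omega)).trans (a1 i hi), fun e he => ?_⟩
      rcases List.mem_append.1 he with he | he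
      · exact holds_all_congr p3 a2 b1 e he
      · exact b2 e he

/-! ### four squares -/

theorem isPoly_subst {α δ : Type} {f : (α → ℕ) → ℤ} (hf : IsPoly f) (h : α → (δ → ℕ) → ℕ)
    (hh : ∀ i, IsPoly fun u : δ → ℕ => ((h i u : ℕ) : ℤ)) :
    IsPoly fun u : δ → ℕ => f fun i => h i u := by
  induction hf with
  | proj i => exact hh i
  | const n => exact IsPoly.const n
  | sub _ _ ihf ihg => exact ihf.sub ihg
  | mul _ _ ihf ihg => exact ihf.mul ihg

/-- `b`-th unknown as a sum of four squares of differences -/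
def sq4 {β : Type} (u : Unit ⊕ (β × Fin 4 × Bool) → ℕ) (b : β) : ℕ :=
  (∑ t : Fin 4, ((u (.inr (b, t, true)) : ℤ) - u (.inr (b, t, false))) *
    ((u (.inr (b, t, true)) : ℤ) - u (.inr (b, t, false)))).toNat

theorem isPoly_sq4 {β : Type} (b : β) :
    IsPoly fun u : Unit ⊕ (β × Fin 4 × Bool) → ℕ => ((sq4 u b : ℕ) : ℤ) := by
  have h1 : (fun u : Unit ⊕ (β × Fin 4 × Bool) → ℕ => ((sq4 u b : ℕ) : ℤ)) = fun u =>
      ∑ t : Fin 4, ((u (.inr (b, t, true)) : ℤ) - u (.inr (b, t, false))) *
        ((u (.inr (b, t, true)) : ℤ) - u (.inr (b, t, false))) := by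
    funext u
    exact Int.toNat_of_nonneg (Finset.sum_nonneg fun t _ => mul_self_nonneg _)
  rw [h1]
  simp only [Fin.sum_univ_four]
  have hd : ∀ t : Fin 4, IsPoly fun u : Unit ⊕ (β × Fin 4 × Bool) → ℕ =>
      ((u (.inr (b, t, true)) : ℤ) - u (.inr (b, t, false))) *
        ((u (.inr (b, t, true)) : ℤ) - u (.inr (b, t, false))) := fun t =>
    ((IsPoly.proj _).sub (IsPoly.proj _)).mul ((IsPoly.proj _).sub (IsPoly.proj _))
  exact (((hd 0).add (hd 1)).add (hd 2)).add (hd 3)

/-- MRDP with unknowns which may be taken arbitrarily large. -/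
theorem mrdp_large {p : ℕ → Prop} (hp : REPred p) :
    ∃ (δ : Type) (P Q : NE (Unit ⊕ δ)),
      (∀ (a : ℕ) (u : δ → ℕ), P.eval (Sum.elim (fun _ => a) u) = Q.eval (Sum.elim (fun _ => a) u) →
        p a) ∧
      (∀ (a B : ℕ), p a → ∃ u : δ → ℕ, (∀ i, B ≤ u i) ∧
        P.eval (Sum.elim (fun _ => a) u) = Q.eval (Sum.elim (fun _ => a) u)) := by
  obtain ⟨β, F, hF⟩ := mrdp hp (α := Unit) (g := fun v => v ()) (proj_dioph ())
  let h : Unit ⊕ β → (Unit ⊕ (β × Fin 4 × Bool) → ℕ) → ℕ := fun i u => match i with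
    | .inl _ => u (.inl ())
    | .inr b => sq4 u b
  have hh : ∀ i, IsPoly fun u : Unit ⊕ (β × Fin 4 × Bool) → ℕ => ((h i u : ℕ) : ℤ) := by
    intro i
    rcases i with i | b
    · exact IsPoly.proj (Sum.inl ())
    · exact isPoly_sq4 b
  obtain ⟨P, Q, hPQ⟩ := isPoly_ne (isPoly_subst F.2 h hh)
  refine ⟨β × Fin 4 × Bool, P, Q, ?_, ?_⟩
  · intro a u hu
    have h1 := hPQ (Sum.elim (fun _ => a) u)
    rw [hu, sub_self] at h1
    have h2 : p ((fun _ : Unit => a) ()) := by
      refine (hF fun _ => a).2 ⟨fun b => sq4 (Sum.elim (fun _ => a) u) b, ?_⟩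
      rw [← h1]
      show F _ = F _
      congr 1
      funext i
      rcases i with i | b <;> rfl
    exact h2
  · intro a B hpa
    obtain ⟨t, ht⟩ := (hF fun _ => a).1 hpa
    choose s1 s2 s3 s4 hs using fun b => Nat.sum_four_squares (t b)
    let u : β × Fin 4 × Bool → ℕ := fun z => match z with
      | (b, i, true) => ![s1 b, s2 b, s3 b, s4 b] i + B
      | (_, _, false) => B
    refine ⟨u, ?_, ?_⟩
    · rintro ⟨b, i, c⟩
      cases c with
      | true => exact Nat.le_add_left _ _
      | false => exact le_rfl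
    · have hsq : ∀ b, sq4 (Sum.elim (fun _ => a) u) b = t b := by
        intro b
        have : (∑ i : Fin 4, (((Sum.elim (fun _ => a) u : Unit ⊕ (β × Fin 4 × Bool) → ℕ)
            (.inr (b, i, true)) : ℤ) - (Sum.elim (fun _ => a) u : Unit ⊕ (β × Fin 4 × Bool) → ℕ)
            (.inr (b, i, false))) * (((Sum.elim (fun _ => a) u : Unit ⊕ (β × Fin 4 × Bool) → ℕ)
            (.inr (b, i, true)) : ℤ) - (Sum.elim (fun _ => a) u : Unit ⊕ (β × Fin 4 × Bool) → ℕ)
            (.inr (b, i, false)))) = (t b : ℤ) := by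
          rw [← hs b]
          simp only [Sum.elim_inr, u, Fin.sum_univ_four]
          simp
          ring
        rw [sq4, this]
        exact Int.toNat_natCast _
      have h1 := hPQ (Sum.elim (fun _ => a) u)
      have h2 : (F fun i => h i (Sum.elim (fun _ => a) u)) = 0 := by
        rw [← ht]
        congr 1
        funext i
        rcases i with i | b
        · rfl
        · exact hsq b
      have h3 : (0 : ℤ) = _ := h2.symm.trans h1
      omega

/-- **Normal form with large unknowns.** -/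
theorem mrdp_large_system {p : ℕ → Prop} (hp : REPred p) :
    ∃ (m : ℕ) (E : List Eq2), 2 ≤ m ∧ (∀ e ∈ E, e.Below m) ∧
      (∀ (a : ℕ) (y : ℕ → ℕ), (∀ e ∈ E, e.Holds y) → y 1 = (a + 5) * y 0 → 1 ≤ y 0 → p a) ∧
      (∀ (a B : ℕ), p a → ∃ y : ℕ → ℕ, (∀ e ∈ E, e.Holds y) ∧ y 1 = (a + 5) * y 0 ∧
        ∀ i < m, B ≤ y i) := by
  obtain ⟨δ, P, Q, hPQ1, hPQ2⟩ := mrdp_large hp
  let V : List (Unit ⊕ δ) := P.vars ++ Q.vars
  obtain ⟨f, g, hfg⟩ := exists_index V (.inl ())
  obtain ⟨M, hM2, hM⟩ : ∃ M, 2 ≤ M ∧ ∀ b ∈ V, 2 + f b < M := by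
    refine ⟨3 + (V.map f).sum, by omega, fun b hb => ?_⟩
    have := List.single_le_sum (l := V.map f) (fun _ _ => Nat.zero_le _) (f b)
      (List.mem_map.2 ⟨b, hb, rfl⟩)
    omega
  obtain ⟨N1, E1, o, p1, p2, p3, p4, p5, p6⟩ := exists_codes M (N := M) (by omega) le_rfl
  let idx : Unit ⊕ δ → ℕ := fun i => match i with
    | .inl _ => 1
    | .inr b => o (2 + f (.inr b))
  have hidx : ∀ i ∈ V, idx i < N1 := by
    intro i hi
    rcases i with i | b
    · show 1 < N1; omega
    · exact p2 _ (hM _ hi)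
  have hPV : ∀ i ∈ P.vars, i ∈ V := fun i hi => List.mem_append_left _ hi
  have hQV : ∀ i ∈ Q.vars, i ∈ V := fun i hi => List.mem_append_right _ hi
  obtain ⟨N2, E2, oP, q1, q2, q3, q4, q5, q6⟩ := exists_coded P (N := N1) idx (by omega)
    fun i hi => hidx i (hPV i hi)
  obtain ⟨N3, E3, oQ, r1, r2, r3, r4, r5, r6⟩ := exists_coded Q (N := N2) idx (by omega)
    fun i hi => lt_of_lt_of_le (hidx i (hQV i hi)) q1
  obtain ⟨N4, E4, s1, s2, s3, s4, s5⟩ := exists_teq (.var oP) (.var oQ) (N := N3) (by omega)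
    (show oP < N3 by omega) (show oQ < N3 by omega)
  have key : ∀ (a : ℕ) (y : ℕ → ℕ), (∀ e ∈ E1, e.Holds y) → y 1 = (a + 5) * y 0 →
      ∀ i ∈ V, y (idx i) = y 0 * ((Sum.elim (fun _ => a) fun b => y (2 + f (.inr b)) :
        Unit ⊕ δ → ℕ) i + 5) := by
    intro a y hy hya i hi
    rcases i with i | b
    · show y 1 = y 0 * (a + 5)
      rw [hya]; ring
    · exact p4 y hy _ (hM _ hi)
  refine ⟨N4, (E1 ++ E2) ++ (E3 ++ E4), by omega, ?_, ?_, ?_⟩
  · intro e he
    rcases List.mem_append.1 he with he | he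
    · rcases List.mem_append.1 he with he | he
      · exact (p3 e he).mono (by omega)
      · exact (q3 e he).mono (by omega)
    · rcases List.mem_append.1 he with he | he
      · exact (r3 e he).mono (by omega)
      · exact s2 e he
  · intro a y hy hya hy0
    have k1 := key a y (fun e he => hy e (by simp [he])) hya
    have e1 := q4 _ y (fun e he => hy e (by simp [he])) hy0 fun i hi => k1 i (hPV i hi)
    have e2 := r4 _ y (fun e he => hy e (by simp [he])) hy0 fun i hi => k1 i (hQV i hi)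
    have e3 : y oP = y oQ := s3 y fun e he => hy e (by simp [he])
    rw [e1, e2] at e3
    have e4 := Nat.eq_of_mul_eq_mul_left (by omega : 0 < y 0) e3
    exact hPQ1 a (fun b => y (2 + f (.inr b))) (Nat.add_right_cancel e4)
  · intro a B0 hpa
    -- we may assume `B ≥ 1`
    set B := B0 + 1 with hB
    obtain ⟨u, hu1, hu2⟩ := hPQ2 a B hpa
    let y0 : ℕ → ℕ := fun n => if n = 0 then B else if n = 1 then (a + 5) * B else
      match g (n - 2) with
      | .inl _ => B
      | .inr b => u b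
    have hy00 : y0 0 = B := rfl
    have hy01 : y0 1 = (a + 5) * B := rfl
    have hy0b : ∀ b, Sum.inr b ∈ V → y0 (2 + f (.inr b)) = u b := by
      intro b hb
      have h1 : (2 + f (Sum.inr b)) ≠ 0 := by omega
      have h2 : (2 + f (Sum.inr b)) ≠ 1 := by omega
      have h3 : 2 + f (Sum.inr b) - 2 = f (Sum.inr b) := by omega
      simp only [y0, h1, h2, if_false, h3]
      rw [hfg _ hb]
    have hy0B : ∀ n, B ≤ y0 n := by
      intro n
      simp only [y0]
      split_ifs with h1 h2
      · exact le_rfl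
      · exact Nat.le_mul_of_pos_left _ (by omega)
      · cases g (n - 2) with
        | inl _ => exact le_rfl
        | inr b => exact hu1 b
    obtain ⟨y1, a1, b1⟩ := p5 y0
    have hy10 : y1 0 = B := (a1 0 (by omega)).trans hy00
    have hy11 : y1 1 = (a + 5) * y1 0 := by rw [a1 1 (by omega), hy01, hy10]
    have hy1B : ∀ i < N1, B ≤ y1 i := p6 B (by omega) y1 b1 fun i hi => by
      rw [a1 i hi]; exact hy0B i
    let x : Unit ⊕ δ → ℕ := Sum.elim (fun _ => a) u
    have hx : ∀ i ∈ V, y1 (idx i) = y1 0 * (x i + 5) := by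
      intro i hi
      rw [key a y1 b1 hy11 i hi]
      rcases i with i | b
      · rfl
      · show y1 0 * (y1 (2 + f (.inr b)) + 5) = y1 0 * (u b + 5)
        rw [a1 _ (hM _ hi), hy0b b hi]
    obtain ⟨y2, a2, b2⟩ := q5 x y1 (by omega) fun i hi => hx i (hPV i hi)
    have hx2 : ∀ i ∈ V, y2 (idx i) = y2 0 * (x i + 5) := fun i hi => by
      rw [a2 _ (hidx i hi), a2 0 (by omega)]; exact hx i hi
    have hy2B := q6 x B (by omega) y2 b2 (fun i hi => hx2 i (hPV i hi)) fun i hi => by
      rw [a2 i hi]; exact hy1B i hi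
    have hy20 : y2 0 = B := (a2 0 (by omega)).trans hy10
    obtain ⟨y3, a3, b3⟩ := r5 x y2 (by omega) fun i hi => hx2 i (hQV i hi)
    have hx3 : ∀ i ∈ V, y3 (idx i) = y3 0 * (x i + 5) := fun i hi => by
      rw [a3 _ (lt_of_lt_of_le (hidx i hi) q1), a3 0 (by omega)]; exact hx2 i hi
    have hy3B := r6 x B (by omega) y3 b3 (fun i hi => hx3 i (hQV i hi)) fun i hi => by
      rw [a3 i hi]; exact hy2B i hi
    have hy30 : y3 0 = B := (a3 0 (by omega)).trans hy20
    have hE2 : ∀ e ∈ E2, e.Holds y3 := holds_all_congr q3 a3 b2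
    have e1 := q4 x y3 hE2 (by omega) fun i hi => hx3 i (hPV i hi)
    have e2 := r4 x y3 b3 (by omega) fun i hi => hx3 i (hQV i hi)
    obtain ⟨y4, a4, b4⟩ := s4 y3 (by
      show y3 oP = y3 oQ
      rw [e1, e2]
      have : P.eval x = Q.eval x := hu2
      rw [this])
    have hy4B := s5 B (by omega) y4 b4 fun i hi => by rw [a4 i hi]; exact hy3B i hi
    refine ⟨y4, ?_, ?_, fun i hi => le_trans (by omega) (hy4B i hi)⟩
    · intro e he
      rcases List.mem_append.1 he with he | he
      · rcases List.mem_append.1 he with he | he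
        · exact holds_all_congr p3
            (fun i hi => ((a4 i (by omega)).trans (a3 i (by omega))).trans (a2 i hi)) b1 e he
        · exact holds_all_congr q3 (fun i hi => (a4 i (by omega)).trans (a3 i hi)) b2 e he
      · rcases List.mem_append.1 he with he | he
        · exact holds_all_congr r3 a4 b3 e he
        · exact b4 e he
    · rw [a4 1 (by omega), a3 1 (by omega), a2 1 (by omega), hy11, a4 0 (by omega),
        a3 0 (by omega), a2 0 (by omega)]

end Pool.Agent.Helper84.MRDP
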