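import Pool.Agent.Helper84.MRDP.Fact

/-!
# MRDP, part 2: bounded universal quantifiers (Davis–Putnam–Robinson)
-/

set_option autoImplicit false

namespace Pool.Agent.Helper84.MRDP

open Nat Finset

/-! ### properties of polynomial functions -/

theorem isPoly_support {γ : Type} {f : (γ → ℕ) → ℤ} (hf : IsPoly f) :
    ∃ s : Finset γ, ∀ x y : γ → ℕ, (∀ i ∈ s, x i = y i) → f x = f y := by
  classical
  induction hf with
  | proj i => exact ⟨{i}, fun x y h => by simp [h i (mem_singleton_self i)]⟩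
  | const n => exact ⟨∅, fun x y _ => rfl⟩
  | sub _ _ ihf ihg =>
    obtain ⟨s, hs⟩ := ihf
    obtain ⟨t, ht⟩ := ihg
    refine ⟨s ∪ t, fun x y h => ?_⟩
    show _ - _ = _ - _
    rw [hs x y fun i hi => h i (mem_union_left _ hi), ht x y fun i hi => h i (mem_union_right _ hi)]
  | mul _ _ ihf ihg =>
    obtain ⟨s, hs⟩ := ihf
    obtain ⟨t, ht⟩ := ihg
    refine ⟨s ∪ t, fun x y h => ?_⟩
    show _ * _ = _ * _
    rw [hs x y fun i hi => h i (mem_union_left _ hi), ht x y fun i hi => h i (mem_union_right _ hi)]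

theorem isPoly_modEq {γ : Type} {f : (γ → ℕ) → ℤ} (hf : IsPoly f) (m : ℕ) (x y : γ → ℕ)
    (h : ∀ i, x i ≡ y i [MOD m]) : f x ≡ f y [ZMOD m] := by
  induction hf with
  | proj i => exact (Int.natCast_modEq_iff).2 (h i)
  | const n => exact Int.ModEq.refl _
  | sub _ _ ihf ihg => exact Int.ModEq.sub ihf ihg
  | mul _ _ ihf ihg => exact Int.ModEq.mul ihf ihg

theorem isPoly_major {γ : Type} {f : (γ → ℕ) → ℤ} (hf : IsPoly f) :
    ∃ M : (γ → ℕ) → ℕ, Dioph.DiophFn M ∧ (∀ x y : γ → ℕ, (∀ i, x i ≤ y i) → M x ≤ M y) ∧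
      ∀ x, (f x).natAbs ≤ M x := by
  induction hf with
  | proj i => exact ⟨fun x => x i, Dioph.proj_dioph i, fun x y h => h i, fun x => le_rfl⟩
  | const n =>
    exact ⟨fun _ => n.natAbs, Dioph.const_dioph n.natAbs, fun _ _ _ => le_rfl, fun _ => le_rfl⟩
  | sub _ _ ihf ihg =>
    obtain ⟨M, h1, h2, h3⟩ := ihf
    obtain ⟨N, k1, k2, k3⟩ := ihg
    refine ⟨fun x => M x + N x, Dioph.add_dioph h1 k1,
      fun x y h => Nat.add_le_add (h2 x y h) (k2 x y h), fun x => ?_⟩
    exact (Int.natAbs_sub_le _ _).trans (Nat.add_le_add (h3 x) (k3 x))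
  | mul _ _ ihf ihg =>
    obtain ⟨M, h1, h2, h3⟩ := ihf
    obtain ⟨N, k1, k2, k3⟩ := ihg
    refine ⟨fun x => M x * N x, Dioph.mul_dioph h1 k1,
      fun x y h => Nat.mul_le_mul (h2 x y h) (k2 x y h), fun x => ?_⟩
    rw [Int.natAbs_mul]
    exact Nat.mul_le_mul (h3 x) (k3 x)

/-! ### the moduli -/

/-- The modulus belonging to `k`. -/
def md (Q k : ℕ) : ℕ := Q ! * (Q ! / (k + 1)) - 1

theorem md_eq {Q k : ℕ} (h : k < Q) : (k + 1) * md Q k + (k + 1) = Q ! * Q ! := by
  have h1 : (k + 1) ∣ Q ! := Nat.dvd_factorial (by omega) (by omega)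
  obtain ⟨q, hq⟩ := h1
  have h2 : Q ! / (k + 1) = q := by rw [hq, Nat.mul_div_cancel_left _ (by omega)]
  have hq0 : 0 < q := by
    rcases Nat.eq_zero_or_pos q with h0 | h0
    · rw [h0, mul_zero] at hq
      exact absurd hq (Nat.factorial_ne_zero Q)
    · exact h0
  have h3 : 1 ≤ Q ! * q := Nat.mul_pos (Nat.factorial_pos Q) hq0
  unfold md
  rw [h2]
  have h4 : (k + 1) * (Q ! * q - 1) + (k + 1) = (k + 1) * (Q ! * q - 1 + 1) := by ring
  rw [h4, Nat.sub_add_cancel h3]
  calc (k + 1) * (Q ! * q) = Q ! * ((k + 1) * q) := by ring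
    _ = Q ! * Q ! := by rw [← hq]

theorem md_ge {Q k : ℕ} (h : k < Q) (hQ : 3 ≤ Q) : 2 ≤ md Q k := by
  have h1 : (k + 1) ∣ Q ! := Nat.dvd_factorial (by omega) (by omega)
  have h2 : 0 < Q ! / (k + 1) := Nat.div_pos (Nat.le_of_dvd (Nat.factorial_pos Q) h1) (by omega)
  have h3 : 6 ≤ Q ! := by
    calc 6 = 3 ! := rfl
      _ ≤ Q ! := Nat.factorial_le hQ
  have h4 : 6 ≤ Q ! * (Q ! / (k + 1)) := h3.trans (Nat.le_mul_of_pos_right _ h2)
  unfold md; omega

theorem md_prime {Q k p : ℕ} (h : k < Q) (hQ : 3 ≤ Q) (hp : p.Prime) (hd : p ∣ md Q k) :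
    Q < p := by
  by_contra hcon
  have h1 : p ∣ Q ! := Nat.dvd_factorial hp.pos (by omega)
  have h2 : p ∣ Q ! * (Q ! / (k + 1)) := Dvd.dvd.mul_right h1 _
  have h3 := md_ge h hQ
  have h4 : md Q k + 1 = Q ! * (Q ! / (k + 1)) := by unfold md at *; omega
  rw [← h4] at h2
  exact hp.one_lt.ne' (Nat.dvd_one.1 ((Nat.dvd_add_right hd).1 h2))

theorem choose_md {Q B : ℕ} (hB : B + 1 = Q ! * Q !) (n : ℕ) (hn : n ≤ Q) :
    choose B n = ∏ k ∈ range n, md Q k := by
  induction n with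
  | zero => simp
  | succ n ih =>
    rw [prod_range_succ, ← ih (by omega)]
    have h1 := Nat.choose_succ_right_eq B n
    have h2 := md_eq (Q := Q) (k := n) (by omega)
    have h3 : B - n = (n + 1) * md Q n := by omega
    rw [h3] at h1
    apply Nat.eq_of_mul_eq_mul_right (show 0 < n + 1 by omega)
    rw [h1]; ring

theorem md_coprime {Q j k : ℕ} (hj : j < Q) (hk : k < Q) (hjk : j ≠ k) (hQ : 3 ≤ Q) :
    Nat.Coprime (md Q j) (md Q k) := by
  by_contra hcon
  obtain ⟨p, hp, h1, h2⟩ := Nat.Prime.not_coprime_iff_dvd.1 hcon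
  have hQp := md_prime hj hQ hp h1
  have e1 := md_eq hj
  have e2 := md_eq hk
  have d1 : p ∣ (j + 1) * md Q j := Dvd.dvd.mul_left h1 _
  have d2 : p ∣ (k + 1) * md Q k := Dvd.dvd.mul_left h2 _
  rcases Nat.lt_or_ge j k with hlt | hge
  · have e3 : (j + 1) * md Q j = (k + 1) * md Q k + (k - j) := by omega
    rw [e3] at d1
    have d3 : p ∣ k - j := (Nat.dvd_add_right d2).1 d1
    have := Nat.le_of_dvd (by omega) d3
    omega
  · have e3 : (k + 1) * md Q k = (j + 1) * md Q j + (j - k) := by omega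
    rw [e3] at d2
    have d3 : p ∣ j - k := (Nat.dvd_add_right d1).1 d2
    have := Nat.le_of_dvd (by omega) d3
    omega

theorem md_modEq {Q B k : ℕ} (hB : B + 1 = Q ! * Q !) (hk : k < Q) : B ≡ k [MOD md Q k] := by
  have e := md_eq hk
  have e1 : B = k + (k + 1) * md Q k := by omega
  rw [e1]
  show (k + (k + 1) * md Q k) % md Q k = k % md Q k
  rw [Nat.add_mul_mod_self_right]

/-! ### Chinese remainder theorem on `range n` -/

theorem coprime_prod {m : ℕ → ℕ} {n : ℕ}
    (hm : ∀ j ≤ n, ∀ k ≤ n, j ≠ k → Nat.Coprime (m j) (m k)) :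
    Nat.Coprime (∏ k ∈ range n, m k) (m n) := by
  apply Nat.Coprime.prod_left
  intro i hi
  rw [mem_range] at hi
  exact hm i (by omega) n le_rfl (by omega)

theorem crt (m r : ℕ → ℕ) (n : ℕ) (hm : ∀ j < n, ∀ k < n, j ≠ k → Nat.Coprime (m j) (m k)) :
    ∃ x, ∀ k < n, x ≡ r k [MOD m k] := by
  induction n with
  | zero => exact ⟨0, fun k hk => absurd hk (Nat.not_lt_zero _)⟩
  | succ n ih =>
    obtain ⟨x, hx⟩ := ih fun j hj k hk => hm j (by omega) k (by omega)
    have hc : Nat.Coprime (∏ k ∈ range n, m k) (m n) :=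
      coprime_prod fun j hj k hk => hm j (by omega) k (by omega)
    obtain ⟨y, hy1, hy2⟩ := Nat.chineseRemainder hc x (r n)
    refine ⟨y, fun k hk => ?_⟩
    rcases Nat.lt_or_ge k n with h | h
    · exact (hy1.of_dvd (dvd_prod_of_mem m (mem_range.2 h))).trans (hx k h)
    · have : k = n := by omega
      subst this; exact hy2

theorem prod_dvd (m : ℕ → ℕ) (n A : ℕ)
    (hm : ∀ j < n, ∀ k < n, j ≠ k → Nat.Coprime (m j) (m k)) (h : ∀ k < n, m k ∣ A) :
    (∏ k ∈ range n, m k) ∣ A := by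
  induction n with
  | zero => simp
  | succ n ih =>
    rw [prod_range_succ]
    apply Nat.Coprime.mul_dvd_of_dvd_of_dvd
    · exact coprime_prod fun j hj k hk => hm j (by omega) k (by omega)
    · exact ih (fun j hj k hk => hm j (by omega) k (by omega)) fun k hk => h k (by omega)
    · exact h n (by omega)

/-! ### The bounded quantifier theorem, arithmetic form -/

theorem ball_iff {β : Type} (s : Finset β) (F : ℕ → (β → ℕ) → ℤ) (n : ℕ) (M : ℕ → ℕ)
    (hsup : ∀ k, ∀ z z' : β → ℕ, (∀ b ∈ s, z b = z' b) → F k z = F k z')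
    (hmod : ∀ (m k k' : ℕ) (z z' : β → ℕ), k ≡ k' [MOD m] → (∀ b, z b ≡ z' b [MOD m]) →
      F k z ≡ F k' z' [ZMOD m])
    (hM : ∀ (u k : ℕ) (z : β → ℕ), k < n → (∀ b, z b ≤ u) → (F k z).natAbs ≤ M u) :
    (∀ k < n, ∃ z, F k z = 0) ↔
    ∃ (u B : ℕ) (a : β → ℕ), B + 1 = (M u + n + u + 3)! * (M u + n + u + 3)! ∧
      (∀ b ∈ s, u ≤ a b ∧ choose B n ∣ (a b).descFactorial (u + 1)) ∧
      choose B n ∣ (F B a).natAbs := by
  classical
  constructor
  · intro h
    choose! z0 hz0 using h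
    let z : ℕ → β → ℕ := fun k b => if b ∈ s then z0 k b else 0
    have hz : ∀ k < n, F k (z k) = 0 := by
      intro k hk
      rw [← hz0 k hk]
      apply hsup
      intro b hb
      simp [z, hb]
    -- the bound
    let u : ℕ := ∑ k ∈ range n, ∑ b ∈ s, z k b
    have hu : ∀ k < n, ∀ b, z k b ≤ u := by
      intro k hk b
      by_cases hb : b ∈ s
      · calc z k b ≤ ∑ b ∈ s, z k b := single_le_sum (fun _ _ => Nat.zero_le _) hb
          _ ≤ u := single_le_sum (f := fun k => ∑ b ∈ s, z k b) (fun _ _ => Nat.zero_le _)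
              (mem_range.2 hk)
      · have : z k b = 0 := by simp [z, hb]
        omega
    set Q := M u + n + u + 3 with hQ
    have hQ3 : 3 ≤ Q := by omega
    have hnQ : n ≤ Q := by omega
    let B := Nat.factorial Q * Nat.factorial Q - 1
    have hB : B + 1 = Q ! * Q ! := Nat.sub_add_cancel (Nat.mul_pos (factorial_pos Q) (factorial_pos Q))
    have hcop : ∀ j < n, ∀ k < n, j ≠ k → Nat.Coprime (md Q j) (md Q k) :=
      fun j hj k hk hjk => md_coprime (by omega) (by omega) hjk hQ3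
    have hex : ∀ b, ∃ x, ∀ k < n, x ≡ z k b [MOD md Q k] :=
      fun b => crt (md Q) (fun k => z k b) n hcop
    choose a0 ha0 using hex
    let a : β → ℕ := fun b => a0 b + u * ∏ k ∈ range n, md Q k
    have hP : 0 < ∏ k ∈ range n, md Q k := by
      apply prod_pos
      intro k hk
      rw [mem_range] at hk
      have := md_ge (Q := Q) (k := k) (by omega) hQ3
      omega
    have ha : ∀ b, ∀ k < n, a b ≡ z k b [MOD md Q k] := by
      intro b k hk
      have h1 : md Q k ∣ u * ∏ k ∈ range n, md Q k :=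
        Dvd.dvd.mul_left (dvd_prod_of_mem _ (mem_range.2 hk)) _
      obtain ⟨c, hc⟩ := h1
      show (a0 b + u * ∏ k ∈ range n, md Q k) % md Q k = z k b % md Q k
      rw [hc, Nat.add_mul_mod_self_left]
      exact ha0 b k hk
    have hua : ∀ b, u ≤ a b := by
      intro b
      have : u ≤ u * ∏ k ∈ range n, md Q k := Nat.le_mul_of_pos_right _ hP
      show u ≤ a0 b + u * ∏ k ∈ range n, md Q k
      omega
    refine ⟨u, B, a, hB, ?_, ?_⟩
    · intro b _
      refine ⟨hua b, ?_⟩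
      rw [choose_md hB n hnQ]
      apply prod_dvd _ _ _ hcop
      intro k hk
      rw [Nat.descFactorial_eq_prod_range]
      have h1 : z k b ∈ range (u + 1) := mem_range.2 (by have := hu k hk b; omega)
      refine Dvd.dvd.trans ?_ (dvd_prod_of_mem _ h1)
      exact (Nat.modEq_iff_dvd' ((hu k hk b).trans (hua b))).1 (ha b k hk).symm
    · rw [choose_md hB n hnQ]
      apply prod_dvd _ _ _ hcop
      intro k hk
      have h1 := hmod (md Q k) B k a (z k) (md_modEq hB (by omega)) fun b => ha b k hk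
      rw [hz k hk] at h1
      have h2 := (Int.modEq_zero_iff_dvd).1 h1
      exact Int.natCast_dvd.1 h2
  · rintro ⟨u, B, a, hB, ha, hF⟩ k hk
    set Q := M u + n + u + 3 with hQ
    have hQ3 : 3 ≤ Q := by omega
    have hnQ : n ≤ Q := by omega
    have hkQ : k < Q := by omega
    have hne : md Q k ≠ 1 := by have := md_ge hkQ hQ3; omega
    obtain ⟨p, hp, hpd⟩ := Nat.exists_prime_and_dvd hne
    have hpQ := md_prime hkQ hQ3 hp hpd
    have hpN : p ∣ choose B n := by
      rw [choose_md hB n hnQ]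
      exact hpd.trans (dvd_prod_of_mem _ (mem_range.2 hk))
    have hz : ∀ b ∈ s, ∃ j ≤ u, a b ≡ j [MOD p] := by
      intro b hb
      obtain ⟨h1, h2⟩ := ha b hb
      have h3 := hpN.trans h2
      rw [Nat.descFactorial_eq_prod_range] at h3
      obtain ⟨j, hj, hd⟩ := (Prime.dvd_finsetProd_iff hp.prime _).1 h3
      rw [mem_range] at hj
      refine ⟨j, by omega, ?_⟩
      exact ((Nat.modEq_iff_dvd' (show j ≤ a b by omega)).2 hd).symm
    choose! j hj1 hj2 using hz
    let z : β → ℕ := fun b => if b ∈ s then j b else 0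
    let a' : β → ℕ := fun b => if b ∈ s then a b else 0
    have h1 : F B a = F B a' := hsup B a a' fun b hb => by simp [a', hb]
    have hBk : B ≡ k [MOD p] := (md_modEq hB hkQ).of_dvd hpd
    have h2 : F B a' ≡ F k z [ZMOD p] := by
      apply hmod p B k a' z hBk
      intro b
      by_cases hb : b ∈ s
      · simp only [a', z, hb, if_true]; exact hj2 b hb
      · simp only [a', z, hb, if_false]; rfl
    have h3 : (p : ℤ) ∣ F B a' := by
      rw [← h1]
      exact Int.natCast_dvd.2 (hpN.trans hF)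
    have h4 : (p : ℤ) ∣ F k z := (Int.ModEq.dvd_iff h2).1 h3
    have h5 : (F k z).natAbs ≤ M u := by
      apply hM u k z hk
      intro b
      by_cases hb : b ∈ s
      · simp only [z, hb, if_true]; exact hj1 b hb
      · simp only [z, hb, if_false]; exact Nat.zero_le _
    refine ⟨z, ?_⟩
    apply Int.natAbs_eq_zero.1
    apply Nat.eq_zero_of_dvd_of_lt (Int.natCast_dvd.1 h4)
    omega

end Pool.Agent.Helper84.MRDP
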