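import Pool.Agent.Helper84.MRDP.Ball

/-!
# MRDP, part 3: Diophantine sets are closed under bounded universal quantification
-/

set_option autoImplicit false

namespace Pool.Agent.Helper84.MRDP

open Nat Finset Dioph

theorem dioph_univ {γ : Type} : Dioph {_v : γ → ℕ | True} :=
  Dioph.of_no_dummies _ (0 : Poly γ) fun _ => ⟨fun _ => rfl, fun _ => trivial⟩

theorem dioph_finset {γ β : Type} (s : Finset β) (P : β → Set (γ → ℕ))
    (h : ∀ b ∈ s, Dioph (P b)) : Dioph {v : γ → ℕ | ∀ b ∈ s, v ∈ P b} := by
  classical
  induction s using Finset.induction_on with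
  | empty => exact Dioph.ext dioph_univ fun v => by simp
  | insert a s ha ih =>
    have h1 := Dioph.inter (h a (mem_insert_self a s))
      (ih fun b hb => h b (mem_insert_of_mem hb))
    exact Dioph.ext h1 fun v => by simp [Finset.mem_insert]

/-- **Bounded universal quantification.**  The variable `none` is the bound. -/
theorem ball_dioph {α : Type} {S : Set (Option α → ℕ)} (d : Dioph S) :
    Dioph {w : Option α → ℕ | ∀ k < w none, (Option.elim' k fun i => w (some i)) ∈ S} := by
  classical
  obtain ⟨β, p, hp⟩ := d
  obtain ⟨s', hs'⟩ := isPoly_support p.2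
  obtain ⟨M, hM1, hM2, hM3⟩ := isPoly_major p.2
  -- the dummy variables that matter
  let s : Finset β := s'.preimage Sum.inr Sum.inr_injective.injOn
  -- all variables
  let γ := Option α ⊕ Option (Option β)
  let iu : γ := Sum.inr none
  let iB : γ := Sum.inr (some none)
  let ia : β → γ := fun b => Sum.inr (some (some b))
  let iN : γ := Sum.inl none
  -- the renamings
  let gM : Option α ⊕ β → γ := Sum.elim Sum.inl fun _ => iu
  let gB : Option α ⊕ β → γ :=
    Sum.elim (fun i => Option.elim i iB fun j => Sum.inl (some j)) ia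
  have dM : DiophFn fun v : γ → ℕ => M (v ∘ gM) := reindex_diophFn gM hM1
  have dQ : DiophFn fun v : γ → ℕ => (M (v ∘ gM) + v iN + v iu + 3)! :=
    fact_dioph (add_dioph (add_dioph (add_dioph dM (proj_dioph iN)) (proj_dioph iu))
      (const_dioph 3))
  have dC : DiophFn fun v : γ → ℕ => choose (v iB) (v iN) :=
    choose_dioph (proj_dioph iB) (proj_dioph iN)
  have dF : DiophFn fun v : γ → ℕ => ((p.map gB) v).natAbs := abs_poly_dioph _
  have D1 : Dioph {v : γ → ℕ | v iB + 1 =
      (M (v ∘ gM) + v iN + v iu + 3)! * (M (v ∘ gM) + v iN + v iu + 3)!} :=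
    eq_dioph (add_dioph (proj_dioph iB) (const_dioph 1)) (mul_dioph dQ dQ)
  have D2 : Dioph {v : γ → ℕ | ∀ b ∈ s, v ∈ ({v : γ → ℕ | v iu ≤ v (ia b) ∧
      choose (v iB) (v iN) ∣ (v (ia b)).descFactorial (v iu + 1)} : Set (γ → ℕ))} := by
    apply dioph_finset
    intro b _
    exact Dioph.inter (le_dioph (proj_dioph iu) (proj_dioph (ia b)))
      (dvd_dioph dC (descFactorial_dioph (proj_dioph (ia b))
        (add_dioph (proj_dioph iu) (const_dioph 1))))
  have D3 : Dioph {v : γ → ℕ | choose (v iB) (v iN) ∣ ((p.map gB) v).natAbs} := dvd_dioph dC dF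
  have D := ex_dioph (Dioph.inter D1 (Dioph.inter D2 D3))
  refine Dioph.ext D fun w => ?_
  -- the arithmetic statement
  let F : ℕ → (β → ℕ) → ℤ := fun k z => p (Sum.elim (Option.elim' k fun i => w (some i)) z)
  have key := ball_iff s F (w none) (fun u => M (Sum.elim w fun _ => u))
    (by
      intro k z z' h
      apply hs'
      intro i hi
      rcases i with i | b
      · rfl
      · exact h b (by simpa [s] using hi))
    (by
      intro m k k' z z' hk hz
      apply isPoly_modEq p.2
      intro i
      rcases i with (_ | i) | b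
      · exact hk
      · exact Nat.ModEq.refl _
      · exact hz b)
    (by
      intro u k z hk hz
      refine (hM3 _).trans (hM2 _ _ ?_)
      intro i
      rcases i with (_ | i) | b
      · exact hk.le
      · exact le_rfl
      · exact hz b)
  have e1 : (∀ k < w none, (Option.elim' k fun i => w (some i)) ∈ S) ↔
      ∀ k < w none, ∃ z, F k z = 0 := by
    refine forall_congr' fun k => imp_congr Iff.rfl ?_
    rw [hp]
  show (∃ x, _) ↔ (∀ k < w none, (Option.elim' k fun i => w (some i)) ∈ S)
  rw [e1, key]
  constructor
  · rintro ⟨x, h1, h2, h3⟩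
    refine ⟨x none, x (some none), fun b => x (some (some b)), ?_, ?_, ?_⟩
    · have e : (Sum.elim w x) ∘ gM = Sum.elim w fun _ => x none := by
        funext i; rcases i with i | b <;> rfl
      have h1' : x (some none) + 1 = _ := h1
      rw [e] at h1'
      exact h1'
    · exact h2
    · have e : (Sum.elim w x) ∘ gB =
          Sum.elim (Option.elim' (x (some none)) fun i => w (some i)) fun b => x (some (some b)) := by
        funext i
        rcases i with (_ | i) | b <;> rfl
      have h3' : _ ∣ (p ((Sum.elim w x) ∘ gB)).natAbs := h3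
      rw [e] at h3'
      exact h3'
  · rintro ⟨u, B, a, h1, h2, h3⟩
    let x : Option (Option β) → ℕ := fun i => Option.elim i u fun j => Option.elim j B a
    refine ⟨x, ?_, ?_, ?_⟩
    · have e : (Sum.elim w x) ∘ gM = Sum.elim w fun _ => u := by
        funext i; rcases i with i | b <;> rfl
      show B + 1 = (M ((Sum.elim w x) ∘ gM) + w none + u + 3)! *
        (M ((Sum.elim w x) ∘ gM) + w none + u + 3)!
      rw [e]
      exact h1
    · exact h2
    · have e : (Sum.elim w x) ∘ gB =
          Sum.elim (Option.elim' B fun i => w (some i)) a := by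
        funext i
        rcases i with (_ | i) | b <;> rfl
      show _ ∣ (p ((Sum.elim w x) ∘ gB)).natAbs
      rw [e]
      exact h3

/-- Bounded universal quantification with a Diophantine bound. -/
theorem ball_dioph' {α : Type} {f : (α → ℕ) → ℕ} (df : DiophFn f) {S : Set (Option α → ℕ)}
    (d : Dioph S) : Dioph {v : α → ℕ | ∀ k < f v, (Option.elim' k v) ∈ S} := by
  have h := diophFn_comp1 (ball_dioph d) df
  exact Dioph.ext h fun v => Iff.rfl

end Pool.Agent.Helper84.MRDP
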