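import Mathlib

/-!
# MRDP, part 1: binomial coefficients and factorials are Diophantine
-/

set_option autoImplicit false

namespace Pool.Agent.Helper84.MRDP

open Nat Finset

/-! ### digits -/

theorem digit_sum_lt (B : ℕ) (c : ℕ → ℕ) (hc : ∀ i, c i < B) (m : ℕ) :
    ∑ i ∈ range m, c i * B ^ i < B ^ m := by
  induction m with
  | zero => simp
  | succ m ih =>
    rw [sum_range_succ, pow_succ]
    have h := hc m
    have : (c m + 1) * B ^ m ≤ B * B ^ m := Nat.mul_le_mul_right _ h
    nlinarith

theorem digit_eq (B : ℕ) (c : ℕ → ℕ) (hc : ∀ i, c i < B) (m k : ℕ) (hk : k < m) :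
    (∑ i ∈ range m, c i * B ^ i) / B ^ k % B = c k := by
  have hB : 0 < B := lt_of_le_of_lt (Nat.zero_le _) (hc 0)
  obtain ⟨j, rfl⟩ : ∃ j, m = k + 1 + j := ⟨m - (k + 1), by omega⟩
  have h1 : ∑ i ∈ range (k + 1 + j), c i * B ^ i =
      ∑ i ∈ range k, c i * B ^ i + B ^ k * (c k + B * ∑ i ∈ range j, c (k + 1 + i) * B ^ i) := by
    rw [sum_range_add, sum_range_succ, add_assoc, Nat.mul_add, Finset.mul_sum, Finset.mul_sum]
    congr 1
    congr 1
    · ring
    · refine sum_congr rfl fun i _ => ?_
      rw [pow_add, pow_succ]; ring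
  rw [h1, Nat.add_mul_div_left _ _ (pow_pos hB k),
    Nat.div_eq_of_lt (digit_sum_lt B c hc k), zero_add, Nat.add_mul_mod_self_left,
    Nat.mod_eq_of_lt (hc k)]

theorem choose_eq (n k B : ℕ) (hB : 2 ^ n < B) : choose n k = (B + 1) ^ n / B ^ k % B := by
  have hc : ∀ i, choose n i < B := fun i => lt_of_le_of_lt (Nat.choose_le_two_pow n i) hB
  have h1 : (B + 1) ^ n = ∑ i ∈ range (n + 1 + k), choose n i * B ^ i := by
    rw [sum_range_add, add_pow]
    have h2 : ∑ i ∈ range k, choose n (n + 1 + i) * B ^ (n + 1 + i) = 0 := by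
      refine sum_eq_zero fun i _ => ?_
      rw [Nat.choose_eq_zero_of_lt (by omega), zero_mul]
    rw [h2, add_zero]
    refine sum_congr rfl fun i _ => ?_
    rw [one_pow, mul_one, mul_comm]
    rfl
  rw [h1, digit_eq B (fun i => choose n i) hc _ k (by omega)]

/-! ### factorials -/

theorem fact_lemma (n r : ℕ) (hr : (n ! + 1) * (n * n) < r) : r ^ n / choose r n = n ! := by
  have hnr : n ≤ r := by
    rcases Nat.eq_zero_or_pos n with h | h
    · omega
    · have h1 : 1 ≤ n ! := Nat.factorial_pos n
      have h2 : n * n ≤ (n ! + 1) * (n * n) := Nat.le_mul_of_pos_left _ (by omega)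
      have h3 : n ≤ n * n := Nat.le_mul_of_pos_left _ h
      omega
  have hc : 0 < choose r n := Nat.choose_pos hnr
  have hd : r.descFactorial n = n ! * choose r n := Nat.descFactorial_eq_factorial_mul_choose r n
  have h1 : n ! * choose r n ≤ r ^ n := by rw [← hd]; exact Nat.descFactorial_le_pow r n
  -- lower bound for the descending factorial
  have h2 : r ^ n ≤ r.descFactorial n + n * n * r ^ (n - 1) := by
    have key : ∀ m : ℕ, m ≤ r → m ≤ n →
        r ^ m ≤ r.descFactorial m + m * n * r ^ (m - 1) := by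
      intro m
      induction m with
      | zero => intro _ _; simp
      | succ m ih =>
        intro hm hmn
        have ih' := ih (by omega) (by omega)
        have e1 : r.descFactorial (m + 1) = (r - m) * r.descFactorial m := rfl
        have e2 : r.descFactorial m ≤ r ^ m := Nat.descFactorial_le_pow r m
        rw [e1, Nat.add_sub_cancel]
        have e3 : r ^ (m + 1) = r * r ^ m := by rw [pow_succ]; ring
        have e4 : r * (m * n * r ^ (m - 1)) ≤ m * n * r ^ m := by
          rcases Nat.eq_zero_or_pos m with h | h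
          · subst h; simp
          · have : r ^ m = r * r ^ (m - 1) := by
              obtain ⟨j, rfl⟩ : ∃ j, m = j + 1 := ⟨m - 1, by omega⟩
              rw [Nat.add_sub_cancel, pow_succ]; ring
            rw [this]; exact le_of_eq (by ring)
        have e5 : r * r.descFactorial m ≤ (r - m) * r.descFactorial m + m * r ^ m := by
          have : r = (r - m) + m := by omega
          calc r * r.descFactorial m = ((r - m) + m) * r.descFactorial m := by rw [← this]
            _ = (r - m) * r.descFactorial m + m * r.descFactorial m := by ring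
            _ ≤ _ := Nat.add_le_add_left (Nat.mul_le_mul_left _ e2) _
        have e6 : m * r ^ m ≤ n * r ^ m := Nat.mul_le_mul_right _ (by omega)
        calc r ^ (m + 1) = r * r ^ m := e3
          _ ≤ r * (r.descFactorial m + m * n * r ^ (m - 1)) := Nat.mul_le_mul_left _ ih'
          _ = r * r.descFactorial m + r * (m * n * r ^ (m - 1)) := by ring
          _ ≤ (r - m) * r.descFactorial m + m * r ^ m + m * n * r ^ m := Nat.add_le_add e5 e4
          _ ≤ (r - m) * r.descFactorial m + n * r ^ m + m * n * r ^ m := by omega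
          _ = (r - m) * r.descFactorial m + (m + 1) * n * r ^ m := by ring
    exact key n hnr le_rfl
  -- `r ^ n < (n! + 1) * choose r n`
  have h3 : r ^ n < (n ! + 1) * choose r n := by
    have hf : 0 < n ! := Nat.factorial_pos n
    apply Nat.lt_of_mul_lt_mul_left (a := n !)
    have e1 : n ! * ((n ! + 1) * choose r n) = (n ! + 1) * r.descFactorial n := by rw [hd]; ring
    rw [e1]
    rcases Nat.eq_zero_or_pos n with h | h
    · subst h; simp
    · have e2 : r ^ n = r * r ^ (n - 1) := by
        obtain ⟨j, rfl⟩ : ∃ j, n = j + 1 := ⟨n - 1, by omega⟩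
        rw [Nat.add_sub_cancel, pow_succ]; ring
      have hr1 : 0 < r := by omega
      have e3 : 0 < r ^ (n - 1) := pow_pos hr1 _
      have e4 : (n ! + 1) * (n * n * r ^ (n - 1)) < r ^ n := by
        rw [e2]
        calc (n ! + 1) * (n * n * r ^ (n - 1)) = (n ! + 1) * (n * n) * r ^ (n - 1) := by ring
          _ < r * r ^ (n - 1) := Nat.mul_lt_mul_of_pos_right hr e3
      have e5 : (n ! + 1) * r ^ n ≤ (n ! + 1) * r.descFactorial n +
          (n ! + 1) * (n * n * r ^ (n - 1)) := by
        rw [← Nat.mul_add]; exact Nat.mul_le_mul_left _ h2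
      have e6 : (n ! + 1) * r ^ n = n ! * r ^ n + r ^ n := by ring
      omega
  rw [Nat.div_eq_iff hc]
  constructor
  · exact h1
  · have : (n ! + 1) * choose r n = n ! * choose r n + choose r n := by ring
    omega

theorem fact_eq (n : ℕ) :
    n ! = ((n + 2) ^ (n + 4)) ^ n / choose ((n + 2) ^ (n + 4)) n := by
  symm
  apply fact_lemma
  have h1 : n ! ≤ n ^ n := Nat.factorial_le_pow n
  have h2 : n ^ n + 1 ≤ (n + 2) ^ (n + 1) := by
    have : n ^ n ≤ (n + 2) ^ n := Nat.pow_le_pow_left (by omega) n
    have h3 : 1 ≤ (n + 2) ^ n := Nat.one_le_pow _ _ (by omega)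
    rw [pow_succ]; nlinarith
  have h3 : n * n < (n + 2) ^ 3 := by nlinarith [sq_nonneg n]
  calc (n ! + 1) * (n * n) ≤ (n + 2) ^ (n + 1) * (n * n) := Nat.mul_le_mul_right _ (by omega)
    _ < (n + 2) ^ (n + 1) * (n + 2) ^ 3 :=
        Nat.mul_lt_mul_of_pos_left h3 (pow_pos (by omega) _)
    _ = (n + 2) ^ (n + 4) := by rw [← pow_add]

/-! ### Diophantine functions -/

section dioph

open Dioph

variable {α : Type} {f g : (α → ℕ) → ℕ}

theorem choose_dioph (df : DiophFn f) (dg : DiophFn g) :
    DiophFn fun v => choose (f v) (g v) := by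
  have hB : DiophFn fun v => 2 ^ f v + 1 := add_dioph (pow_dioph (const_dioph 2) df) (const_dioph 1)
  have h : DiophFn fun v =>
      ((2 ^ f v + 1) + 1) ^ f v / (2 ^ f v + 1) ^ g v % (2 ^ f v + 1) :=
    mod_dioph (div_dioph (pow_dioph (add_dioph hB (const_dioph 1)) df) (pow_dioph hB dg)) hB
  have e : (fun v => choose (f v) (g v)) = fun v =>
      ((2 ^ f v + 1) + 1) ^ f v / (2 ^ f v + 1) ^ g v % (2 ^ f v + 1) := by
    funext v
    exact choose_eq _ _ _ (Nat.lt_succ_self _)
  rw [e]; exact h

theorem fact_dioph (df : DiophFn f) : DiophFn fun v => (f v)! := by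
  have hr : DiophFn fun v => (f v + 2) ^ (f v + 4) :=
    pow_dioph (add_dioph df (const_dioph 2)) (add_dioph df (const_dioph 4))
  have h : DiophFn fun v =>
      ((f v + 2) ^ (f v + 4)) ^ f v / choose ((f v + 2) ^ (f v + 4)) (f v) :=
    div_dioph (pow_dioph hr df) (choose_dioph hr df)
  have e : (fun v => (f v)!) = fun v =>
      ((f v + 2) ^ (f v + 4)) ^ f v / choose ((f v + 2) ^ (f v + 4)) (f v) := by
    funext v
    exact fact_eq _
  rw [e]; exact h

theorem descFactorial_dioph (df : DiophFn f) (dg : DiophFn g) :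
    DiophFn fun v => (f v).descFactorial (g v) := by
  have h : DiophFn fun v => (g v)! * choose (f v) (g v) :=
    mul_dioph (fact_dioph dg) (choose_dioph df dg)
  have e : (fun v => (f v).descFactorial (g v)) = fun v => (g v)! * choose (f v) (g v) := by
    funext v
    exact Nat.descFactorial_eq_factorial_mul_choose _ _
  rw [e]; exact h

end dioph

end Pool.Agent.Helper84.MRDP
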