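import Pool.Agent.Helper84.MRDP.Spec

set_option autoImplicit false

/-!
# A normal form in which all unknowns may be taken large

Every r.e. set `p` has a fixed finite list `E` of equations `y i + y j = y k`, `y j = y i ^ 2` such that
* a solution of `E ∧ y 1 = (a + 5) * y 0` with `y 0 ≥ 1` implies `p a`;
* `p a` implies that for every `B` there is a solution of `E ∧ y 1 = (a + 5) * y 0` with all
  unknowns `≥ B`.
-/

namespace Pool.Agent.Helper84.MRDP

open Dioph

/-- every solution with old variables `≥ B` has all variables `≥ B` -/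
def Big (N N' : ℕ) (E : List Eq2) : Prop :=
  ∀ B : ℕ, 1 ≤ B → ∀ y : ℕ → ℕ, (∀ e ∈ E, e.Holds y) → (∀ i < N, B ≤ y i) → ∀ i < N', B ≤ y i

theorem big_seq {N N1 N2 : ℕ} {E1 E2 : List Eq2} (h1 : Big N N1 E1) (h2 : Big N1 N2 E2) :
    Big N N2 (E1 ++ E2) := fun B hB y hy hN =>
  h2 B hB y (fun e he => hy e (List.mem_append_right _ he))
    (h1 B hB y (fun e he => hy e (List.mem_append_left _ he)) hN)

theorem big_nil {N : ℕ} : Big N N [] := fun _ _ _ _ h => h

theorem big_add {N i j : ℕ} (hi : i < N) : Big N (N + 1) [.add i j N] := by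
  intro B _ y hy hN n hn
  rcases Nat.lt_or_ge n N with h | h
  · exact hN n h
  · have : n = N := by omega
    subst this
    have h' : y i + y j = y n := hy _ (List.mem_singleton_self _)
    have := hN i hi
    omega

theorem bblk_mul {N i j : ℕ} (hi : i < N) (hj : j < N) :
    ∃ (N' : ℕ) (E : List Eq2) (o : ℕ), Blk N N' o E (fun y => y i * y j) ∧ Big N N' E := by
  refine ⟨N + 7, [.add i j N, .sq N (N + 1), .sq i (N + 2), .sq j (N + 3),
    .add (N + 2) (N + 3) (N + 4), .add (N + 5) (N + 5) (N + 6),
    .add (N + 4) (N + 6) (N + 1)], N + 5, ?_, ?_⟩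
  · refine ⟨by omega, by omega, ?_, ?_, ?_, ?_⟩
    · intro e he
      simp only [List.mem_cons, List.not_mem_nil, or_false] at he
      rcases he with rfl | rfl | rfl | rfl | rfl | rfl | rfl
      · exact ⟨by omega, by omega, by omega⟩
      · exact ⟨by omega, by omega⟩
      · exact ⟨by omega, by omega⟩
      · exact ⟨by omega, by omega⟩
      · exact ⟨by omega, by omega, by omega⟩
      · exact ⟨by omega, by omega, by omega⟩
      · exact ⟨by omega, by omega, by omega⟩
    · intro y hy
      have h1 : y i + y j = y N := hy (.add i j N) (by simp)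
      have h2 : y (N + 1) = y N * y N := hy (.sq N (N + 1)) (by simp)
      have h3 : y (N + 2) = y i * y i := hy (.sq i (N + 2)) (by simp)
      have h4 : y (N + 3) = y j * y j := hy (.sq j (N + 3)) (by simp)
      have h5 : y (N + 2) + y (N + 3) = y (N + 4) := hy (.add (N + 2) (N + 3) (N + 4)) (by simp)
      have h6 : y (N + 5) + y (N + 5) = y (N + 6) := hy (.add (N + 5) (N + 5) (N + 6)) (by simp)
      have h7 : y (N + 4) + y (N + 6) = y (N + 1) := hy (.add (N + 4) (N + 6) (N + 1)) (by simp)
      show y (N + 5) = y i * y j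
      rw [h2, ← h1, ← h5, h3, h4, ← h6] at h7
      nlinarith
    · intro y
      let a := y i
      let b := y j
      refine ⟨fun n => if n = N then a + b else if n = N + 1 then (a + b) * (a + b) else
        if n = N + 2 then a * a else if n = N + 3 then b * b else if n = N + 4 then a * a + b * b else
        if n = N + 5 then a * b else if n = N + 6 then a * b + a * b else y n, ?_, ?_⟩
      · intro n hn
        simp only [show n ≠ N by omega, show n ≠ N + 1 by omega, show n ≠ N + 2 by omega,
          show n ≠ N + 3 by omega, show n ≠ N + 4 by omega, show n ≠ N + 5 by omega,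
          show n ≠ N + 6 by omega, if_false]
      · intro e he
        simp only [List.mem_cons, List.not_mem_nil, or_false] at he
        rcases he with rfl | rfl | rfl | rfl | rfl | rfl | rfl
        · simp only [Eq2.Holds, show i ≠ N by omega, show i ≠ N + 1 by omega,
            show i ≠ N + 2 by omega, show i ≠ N + 3 by omega, show i ≠ N + 4 by omega,
            show i ≠ N + 5 by omega, show i ≠ N + 6 by omega, show j ≠ N by omega,
            show j ≠ N + 1 by omega, show j ≠ N + 2 by omega, show j ≠ N + 3 by omega,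
            show j ≠ N + 4 by omega, show j ≠ N + 5 by omega, show j ≠ N + 6 by omega, if_false,
            if_true]
          rfl
        · simp [Eq2.Holds]
        · simp only [Eq2.Holds, show i ≠ N by omega, show i ≠ N + 1 by omega,
            show i ≠ N + 2 by omega, show i ≠ N + 3 by omega, show i ≠ N + 4 by omega,
            show i ≠ N + 5 by omega, show i ≠ N + 6 by omega, if_false]
          simp [a]
        · simp only [Eq2.Holds, show j ≠ N by omega,
            show j ≠ N + 1 by omega, show j ≠ N + 2 by omega, show j ≠ N + 3 by omega,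
            show j ≠ N + 4 by omega, show j ≠ N + 5 by omega, show j ≠ N + 6 by omega, if_false]
          simp [b]
        · simp [Eq2.Holds]
        · simp [Eq2.Holds]
        · simp [Eq2.Holds]; ring
    · intro y hy hE n hn
      have h1 : y i + y j = y N := hE (.add i j N) (by simp)
      have h2 : y (N + 1) = y N * y N := hE (.sq N (N + 1)) (by simp)
      have h3 : y (N + 2) = y i * y i := hE (.sq i (N + 2)) (by simp)
      have h4 : y (N + 3) = y j * y j := hE (.sq j (N + 3)) (by simp)
      have h5 : y (N + 2) + y (N + 3) = y (N + 4) := hE (.add (N + 2) (N + 3) (N + 4)) (by simp)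
      have h6 : y (N + 5) + y (N + 5) = y (N + 6) := hE (.add (N + 5) (N + 5) (N + 6)) (by simp)
      have h7 : y (N + 4) + y (N + 6) = y (N + 1) := hE (.add (N + 4) (N + 6) (N + 1)) (by simp)
      rw [hy i hi, hy j hj] at h1
      have g0 : y N = 0 := h1.symm
      rw [g0] at h2
      rw [hy i hi] at h3
      rw [hy j hj] at h4
      rcases Nat.lt_or_ge n N with h | h
      · exact hy n h
      · have : n = N ∨ n = N + 1 ∨ n = N + 2 ∨ n = N + 3 ∨ n = N + 4 ∨ n = N + 5 ∨ n = N + 6 := by
          omega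
        rcases this with rfl | rfl | rfl | rfl | rfl | rfl | rfl <;> omega
  · intro B hB y hy hN n hn
    have h1 : y i + y j = y N := hy (.add i j N) (by simp)
    have h2 : y (N + 1) = y N * y N := hy (.sq N (N + 1)) (by simp)
    have h3 : y (N + 2) = y i * y i := hy (.sq i (N + 2)) (by simp)
    have h4 : y (N + 3) = y j * y j := hy (.sq j (N + 3)) (by simp)
    have h5 : y (N + 2) + y (N + 3) = y (N + 4) := hy (.add (N + 2) (N + 3) (N + 4)) (by simp)
    have h6 : y (N + 5) + y (N + 5) = y (N + 6) := hy (.add (N + 5) (N + 5) (N + 6)) (by simp)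
    have h7 : y (N + 4) + y (N + 6) = y (N + 1) := hy (.add (N + 4) (N + 6) (N + 1)) (by simp)
    have hs : y (N + 5) = y i * y j := by
      rw [h2, ← h1, ← h5, h3, h4, ← h6] at h7
      nlinarith
    have hBi := hN i hi
    have hBj := hN j hj
    have m1 : B ≤ y i * y i := hBi.trans (Nat.le_mul_of_pos_left _ (by omega))
    have m2 : B ≤ y j * y j := hBj.trans (Nat.le_mul_of_pos_left _ (by omega))
    have m3 : B ≤ y i * y j := hBj.trans (Nat.le_mul_of_pos_left _ (by omega))
    have m4 : B ≤ y N := by omega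
    have m5 : B ≤ y N * y N := m4.trans (Nat.le_mul_of_pos_left _ (by omega))
    rcases Nat.lt_or_ge n N with h | h
    · exact hN n h
    · have : n = N ∨ n = N + 1 ∨ n = N + 2 ∨ n = N + 3 ∨ n = N + 4 ∨ n = N + 5 ∨ n = N + 6 := by
        omega
      rcases this with rfl | rfl | rfl | rfl | rfl | rfl | rfl <;> omega

/-- a positive constant: `(n + 1) * y 0` -/
theorem bblk_const {N : ℕ} (hN : 0 < N) (n : ℕ) :
    ∃ (N' : ℕ) (E : List Eq2) (o : ℕ), Blk N N' o E (fun y => (n + 1) * y 0) ∧ Big N N' E := by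
  induction n with
  | zero =>
    refine ⟨N, [], 0, ?_, big_nil⟩
    have := blk_nil (N := N) (o := 0) hN
    refine ⟨this.le, this.out_lt, this.below, fun y hy => ?_, this.compl, this.zero⟩
    show y 0 = (0 + 1) * y 0
    ring
  | succ n ih =>
    obtain ⟨N1, E1, o1, h1, hb⟩ := ih
    have hlt : 0 < N1 := lt_of_lt_of_le hN h1.le
    have h2 := blk_seq h1 (blk_add (N := N1) (i := o1) (j := 0) h1.out_lt hlt)
    refine ⟨N1 + 1, E1 ++ [.add o1 0 N1], N1,
      ⟨h2.le, h2.out_lt, h2.below, ?_, h2.compl, h2.zero⟩, big_seq hb (big_add h1.out_lt)⟩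
    intro y hy
    rw [h2.sound y hy]
    show y o1 + y 0 = (n + 1 + 1) * y 0
    rw [h1.sound y fun e he => hy e (List.mem_append_left _ he)]
    ring

/-- positive terms: `mc n = (n + 1) * y 0` -/
inductive PT : Type
  | var (i : ℕ)
  | mc (n : ℕ)
  | add (P Q : PT)
  | mul (P Q : PT)

/-- value -/
def PT.val (y : ℕ → ℕ) : PT → ℕ
  | .var i => y i
  | .mc n => (n + 1) * y 0
  | .add P Q => P.val y + Q.val y
  | .mul P Q => P.val y * Q.val y

/-- the variables are `< N` -/
def PT.In (N : ℕ) : PT → Prop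
  | .var i => i < N
  | .mc _ => True
  | .add P Q => P.In N ∧ Q.In N
  | .mul P Q => P.In N ∧ Q.In N

theorem PT.In.mono {N N' : ℕ} (h : N ≤ N') {P : PT} (hP : P.In N) : P.In N' := by
  induction P with
  | var i => exact lt_of_lt_of_le hP h
  | mc n => trivial
  | add P Q ihP ihQ => exact ⟨ihP hP.1, ihQ hP.2⟩
  | mul P Q ihP ihQ => exact ⟨ihP hP.1, ihQ hP.2⟩

theorem PT.val_congr {N : ℕ} (hN : 0 < N) {y y' : ℕ → ℕ} (h : ∀ i < N, y i = y' i) {P : PT}
    (hP : P.In N) : P.val y = P.val y' := by
  induction P with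
  | var i => exact h i hP
  | mc n => show (n + 1) * y 0 = (n + 1) * y' 0; rw [h 0 hN]
  | add P Q ihP ihQ => show P.val y + Q.val y = _ + _; rw [ihP hP.1, ihQ hP.2]
  | mul P Q ihP ihQ => show P.val y * Q.val y = _ * _; rw [ihP hP.1, ihQ hP.2]

theorem bblk_term (P : PT) : ∀ {N : ℕ}, 0 < N → P.In N →
    ∃ (N' : ℕ) (E : List Eq2) (o : ℕ), Blk N N' o E (fun y => P.val y) ∧ Big N N' E := by
  induction P with
  | var i => intro N _ h; exact ⟨N, [], i, blk_nil h, big_nil⟩
  | mc n => intro N hN _; exact bblk_const hN n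
  | add P Q ihP ihQ =>
    intro N hN h
    obtain ⟨N1, E1, o1, h1, b1⟩ := ihP hN h.1
    obtain ⟨N2, E2, o2, h2, b2⟩ := ihQ (lt_of_lt_of_le hN h1.le) (h.2.mono h1.le)
    have hol : o1 < N2 := lt_of_lt_of_le h1.out_lt h2.le
    have h3 := blk_seq (blk_seq h1 h2) (blk_add (N := N2) (i := o1) (j := o2) hol h2.out_lt)
    refine ⟨_, _, _, ⟨h3.le, h3.out_lt, h3.below, ?_, h3.compl, h3.zero⟩,
      big_seq (big_seq b1 b2) (big_add hol)⟩
    intro y hy
    rw [h3.sound y hy]
    show y o1 + y o2 = P.val y + Q.val y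
    rw [h1.sound y fun e he => hy e (by simp [he]), h2.sound y fun e he => hy e (by simp [he])]
  | mul P Q ihP ihQ =>
    intro N hN h
    obtain ⟨N1, E1, o1, h1, b1⟩ := ihP hN h.1
    obtain ⟨N2, E2, o2, h2, b2⟩ := ihQ (lt_of_lt_of_le hN h1.le) (h.2.mono h1.le)
    have hol : o1 < N2 := lt_of_lt_of_le h1.out_lt h2.le
    obtain ⟨N3, E3, o3, h3, b3⟩ := bblk_mul (N := N2) (i := o1) (j := o2) hol h2.out_lt
    have h4 := blk_seq (blk_seq h1 h2) h3
    refine ⟨_, _, _, ⟨h4.le, h4.out_lt, h4.below, ?_, h4.compl, h4.zero⟩,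
      big_seq (big_seq b1 b2) b3⟩
    intro y hy
    rw [h4.sound y hy]
    show y o1 * y o2 = P.val y * Q.val y
    rw [h1.sound y fun e he => hy e (by simp [he]), h2.sound y fun e he => hy e (by simp [he])]

/-- an equation between two positive terms -/
theorem exists_teq (P Q : PT) {N : ℕ} (hN : 0 < N) (hP : P.In N) (hQ : Q.In N) :
    ∃ (N' : ℕ) (E : List Eq2), N ≤ N' ∧ (∀ e ∈ E, e.Below N') ∧
      (∀ y : ℕ → ℕ, (∀ e ∈ E, e.Holds y) → P.val y = Q.val y) ∧
      (∀ y : ℕ → ℕ, P.val y = Q.val y →
        ∃ y' : ℕ → ℕ, (∀ i < N, y' i = y i) ∧ ∀ e ∈ E, e.Holds y') ∧ Big N N' E := by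
  obtain ⟨N1, E1, o1, h1, b1⟩ := bblk_term P hN hP
  obtain ⟨N2, E2, o2, h2, b2⟩ := bblk_term Q (lt_of_lt_of_le hN h1.le) (hQ.mono h1.le)
  have hol : o1 < N2 := lt_of_lt_of_le h1.out_lt h2.le
  have hN2 : 0 < N2 := lt_of_lt_of_le (lt_of_lt_of_le hN h1.le) h2.le
  have h3 := blk_seq (blk_seq h1 h2) (blk_add (N := N2) (i := o1) (j := 0) hol hN2)
  refine ⟨N2 + 1, ((E1 ++ E2) ++ [.add o1 0 N2]) ++ [.add o2 0 N2], h3.le, ?_, ?_, ?_, ?_⟩
  · intro e he
    rcases List.mem_append.1 he with he | he
    · exact h3.below e he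
    · rw [List.mem_singleton] at he
      subst he
      have := h2.out_lt
      exact ⟨by omega, by omega, by omega⟩
  · intro y hy
    have e1 : y o1 + y 0 = y N2 := hy (.add o1 0 N2) (by simp)
    have e2 : y o2 + y 0 = y N2 := hy (.add o2 0 N2) (by simp)
    have s1 := h1.sound y fun e he => hy e (by simp [he])
    have s2 := h2.sound y fun e he => hy e (by simp [he])
    have s1' : y o1 = P.val y := s1
    have s2' : y o2 = Q.val y := s2
    omega
  · intro y hPQ
    obtain ⟨y', ha, hb⟩ := h3.compl y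
    refine ⟨y', ha, fun e he => ?_⟩
    rcases List.mem_append.1 he with he | he
    · exact hb e he
    · rw [List.mem_singleton] at he
      subst he
      have e1 : y' o1 + y' 0 = y' N2 := hb (.add o1 0 N2) (by simp)
      have s1 : y' o1 = P.val y' := h1.sound y' fun e he => hb e (by simp [he])
      have s2 : y' o2 = Q.val y' := h2.sound y' fun e he => hb e (by simp [he])
      show y' o2 + y' 0 = y' N2
      rw [← e1, s1, s2, PT.val_congr hN ha hP, PT.val_congr hN ha hQ, hPQ]
  · have hbig := big_seq (big_seq b1 b2) (big_add (N := N2) (i := o1) (j := 0) hol)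
    intro B hB y hy hNy
    exact hbig B hB y (fun e he => hy e (by
      rcases List.mem_append.1 he with he | he
      · rcases List.mem_append.1 he with he | he
        · simp [he]
        · simp [he]
      · simp only [List.mem_singleton] at he; simp [he])) hNy

end Pool.Agent.Helper84.MRDP
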