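import Pool.Agent.Helper84.MRDP.Partrec

/-!
# MRDP, part 5: a normal form with a switch

Every recursively enumerable set of natural numbers is defined by one finite list of equations of the
forms `y_i + y_j = y_k`, `y_j = y_i ^ 2` together with `y_1 = a * y_0`, where `y_0` is a switch:
`y_0 = 0` only for the zero solution and `y_0 = 1` otherwise.
-/

set_option autoImplicit false

namespace Pool.Agent.Helper84.MRDP

open Dioph

/-- Expressions with natural coefficients. -/
inductive NE (γ : Type) : Type
  | var (i : γ)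
  | const (n : ℕ)
  | add (P Q : NE γ)
  | mul (P Q : NE γ)

namespace NE

/-- evaluation; the constants are multiplied by `e` -/
def evalE {γ : Type} (e : ℕ) : NE γ → (γ → ℕ) → ℕ
  | var i, x => x i
  | const n, _ => n * e
  | add P Q, x => P.evalE e x + Q.evalE e x
  | mul P Q, x => P.evalE e x * Q.evalE e x

/-- ordinary evaluation -/
def eval {γ : Type} : NE γ → (γ → ℕ) → ℕ := evalE 1

/-- renaming of variables -/
def map {γ δ : Type} (f : γ → δ) : NE γ → NE δ
  | var i => var (f i)
  | const n => const n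
  | add P Q => add (P.map f) (Q.map f)
  | mul P Q => mul (P.map f) (Q.map f)

/-- the variables -/
def vars {γ : Type} : NE γ → List γ
  | var i => [i]
  | const _ => []
  | add P Q => P.vars ++ Q.vars
  | mul P Q => P.vars ++ Q.vars

theorem evalE_map {γ δ : Type} (e : ℕ) (f : γ → δ) (P : NE γ) (x : δ → ℕ) :
    (P.map f).evalE e x = P.evalE e (x ∘ f) := by
  induction P with
  | var i => rfl
  | const n => rfl
  | add P Q ihP ihQ => simp only [map, evalE, ihP, ihQ]
  | mul P Q ihP ihQ => simp only [map, evalE, ihP, ihQ]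

theorem evalE_congr {γ : Type} (e : ℕ) (P : NE γ) (x y : γ → ℕ) (h : ∀ i ∈ P.vars, x i = y i) :
    P.evalE e x = P.evalE e y := by
  induction P with
  | var i => exact h i (by simp [vars])
  | const n => rfl
  | add P Q ihP ihQ =>
    simp only [evalE]
    rw [ihP fun i hi => h i (by simp [vars, hi]), ihQ fun i hi => h i (by simp [vars, hi])]
  | mul P Q ihP ihQ =>
    simp only [evalE]
    rw [ihP fun i hi => h i (by simp [vars, hi]), ihQ fun i hi => h i (by simp [vars, hi])]

theorem evalE_zero {γ : Type} (P : NE γ) (x : γ → ℕ) (h : ∀ i ∈ P.vars, x i = 0) :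
    P.evalE 0 x = 0 := by
  induction P with
  | var i => exact h i (by simp [vars])
  | const n => simp [evalE]
  | add P Q ihP ihQ =>
    simp only [evalE]
    rw [ihP fun i hi => h i (by simp [vars, hi]), ihQ fun i hi => h i (by simp [vars, hi])]
  | mul P Q ihP ihQ =>
    simp only [evalE]
    rw [ihP fun i hi => h i (by simp [vars, hi]), zero_mul]

theorem vars_map {γ δ : Type} (f : γ → δ) (P : NE γ) : (P.map f).vars = P.vars.map f := by
  induction P with
  | var i => rfl
  | const n => rfl
  | add P Q ihP ihQ => simp only [map, vars, ihP, ihQ, List.map_append]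
  | mul P Q ihP ihQ => simp only [map, vars, ihP, ihQ, List.map_append]

end NE

/-- A polynomial function is the difference of two expressions. -/
theorem isPoly_ne {γ : Type} {f : (γ → ℕ) → ℤ} (hf : IsPoly f) :
    ∃ P Q : NE γ, ∀ x, f x = (P.eval x : ℤ) - Q.eval x := by
  induction hf with
  | proj i => exact ⟨.var i, .const 0, fun x => by simp [NE.eval, NE.evalE]⟩
  | const n =>
    refine ⟨.const n.toNat, .const (-n).toNat, fun x => ?_⟩
    simp only [NE.eval, NE.evalE, mul_one]
    exact (Int.toNat_sub_toNat_neg n).symm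
  | sub _ _ ihf ihg =>
    obtain ⟨P, Q, h1⟩ := ihf
    obtain ⟨P', Q', h2⟩ := ihg
    refine ⟨.add P Q', .add Q P', fun x => ?_⟩
    have h3 := h1 x
    have h4 := h2 x
    simp only [NE.eval, NE.evalE] at *
    rw [h3, h4]; push_cast; ring
  | mul _ _ ihf ihg =>
    obtain ⟨P, Q, h1⟩ := ihf
    obtain ⟨P', Q', h2⟩ := ihg
    refine ⟨.add (.mul P P') (.mul Q Q'), .add (.mul P Q') (.mul Q P'), fun x => ?_⟩
    have h3 := h1 x
    have h4 := h2 x
    simp only [NE.eval, NE.evalE] at *
    rw [h3, h4]; push_cast; ring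

theorem exists_index {γ : Type*} (V : List γ) (d : γ) :
    ∃ (f : γ → ℕ) (g : ℕ → γ), ∀ b ∈ V, g (f b) = b := by
  classical
  refine ⟨fun b => V.idxOf b, fun n => if h : n < V.length then V[n] else d, fun b hb => ?_⟩
  have hlt := List.idxOf_lt_length_iff.2 hb
  show (if h : V.idxOf b < V.length then V[V.idxOf b] else d) = b
  rw [dif_pos hlt]
  exact List.getElem_idxOf hlt

/-- MRDP with two expressions: variable `1` is the parameter, the unknowns are the variables `≥ 2`. -/
theorem mrdp_ne {p : ℕ → Prop} (hp : REPred p) :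
    ∃ (P Q : NE ℕ), (∀ i ∈ P.vars, 1 ≤ i) ∧ (∀ i ∈ Q.vars, 1 ≤ i) ∧
      ∀ a, p a ↔ ∃ y : ℕ → ℕ, y 1 = a ∧ P.eval y = Q.eval y := by
  classical
  obtain ⟨β, F, hF⟩ := mrdp hp (α := Unit) (g := fun v => v ()) (proj_dioph ())
  obtain ⟨P, Q, hPQ⟩ := isPoly_ne F.2
  let V : List (Unit ⊕ β) := P.vars ++ Q.vars
  -- an index function
  obtain ⟨f, g, hfg⟩ := exists_index V (.inl ())
  let idx : Unit ⊕ β → ℕ := fun i => match i with
    | .inl _ => 1
    | .inr b => 2 + f (.inr b)
  let back : ℕ → Unit ⊕ β := fun n => g (n - 2)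
  have hidx1 : ∀ i, 1 ≤ idx i := by
    intro i
    rcases i with i | b
    · exact le_rfl
    · show 1 ≤ 2 + _; omega
  have hval : ∀ (a : ℕ) (t : β → ℕ) (y : ℕ → ℕ), y 1 = a →
      (∀ b, Sum.inr b ∈ V → y (2 + f (.inr b)) = t b) →
      ∀ R : NE (Unit ⊕ β), (∀ i ∈ R.vars, i ∈ V) →
        (R.map idx).eval y = R.eval (Sum.elim (fun _ => a) t) := by
    intro a t y hy1 hy2 R hR
    show (R.map idx).evalE 1 y = R.evalE 1 _
    rw [NE.evalE_map]
    apply NE.evalE_congr
    intro i hi
    rcases i with i | b
    · exact hy1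
    · exact hy2 b (hR _ hi)
  have hPV : ∀ i ∈ P.vars, i ∈ V := fun i hi => List.mem_append_left _ hi
  have hQV : ∀ i ∈ Q.vars, i ∈ V := fun i hi => List.mem_append_right _ hi
  refine ⟨P.map idx, Q.map idx, ?_, ?_, ?_⟩
  · intro i hi
    rw [NE.vars_map, List.mem_map] at hi
    obtain ⟨j, -, rfl⟩ := hi
    exact hidx1 j
  · intro i hi
    rw [NE.vars_map, List.mem_map] at hi
    obtain ⟨j, -, rfl⟩ := hi
    exact hidx1 j
  · intro a
    have h1 : p a ↔ ∃ t, F (Sum.elim (fun _ => a) t) = 0 := hF fun _ => a
    rw [h1]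
    constructor
    · rintro ⟨t, ht⟩
      let y : ℕ → ℕ := fun n => if n = 1 then a else Sum.elim (fun _ => a) t (back n)
      have hy2 : ∀ b, Sum.inr b ∈ V → y (2 + f (.inr b)) = t b := by
        intro b hb
        have e1 : (2 + f (Sum.inr b)) ≠ 1 := by omega
        have e2 : back (2 + f (Sum.inr b)) = Sum.inr b := by
          simp only [back, Nat.add_sub_cancel_left]
          exact hfg _ hb
        simp only [y, e1, if_false, e2, Sum.elim_inr]
      refine ⟨y, by simp [y], ?_⟩
      rw [hval a t y (by simp [y]) hy2 P hPV, hval a t y (by simp [y]) hy2 Q hQV]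
      have h2 : F (Sum.elim (fun _ => a) t) = _ := hPQ _
      rw [ht] at h2
      omega
    · rintro ⟨y, hy1, hy⟩
      let t : β → ℕ := fun b => y (2 + f (.inr b))
      refine ⟨t, ?_⟩
      rw [hval a t y hy1 (fun _ _ => rfl) P hPV, hval a t y hy1 (fun _ _ => rfl) Q hQV] at hy
      have h2 : F (Sum.elim (fun _ => a) t) = _ := hPQ _
      rw [h2, hy]
      exact sub_self _

/-! ### compilation into equations -/

/-- elementary equations -/
inductive Eq2 : Type
  | add (i j k : ℕ)
  | sq (i j : ℕ)

/-- `add i j k`: `y i + y j = y k`;  `sq i j`: `y j = y i ^ 2`. -/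
def Eq2.Holds (y : ℕ → ℕ) : Eq2 → Prop
  | .add i j k => y i + y j = y k
  | .sq i j => y j = y i * y i

/-- the variables are `< m` -/
def Eq2.Below (m : ℕ) : Eq2 → Prop
  | .add i j k => i < m ∧ j < m ∧ k < m
  | .sq i j => i < m ∧ j < m

theorem Eq2.Below.mono {m m' : ℕ} (h : m ≤ m') {e : Eq2} (he : e.Below m) : e.Below m' := by
  cases e with
  | add i j k => exact ⟨lt_of_lt_of_le he.1 h, lt_of_lt_of_le he.2.1 h, lt_of_lt_of_le he.2.2 h⟩
  | sq i j => exact ⟨lt_of_lt_of_le he.1 h, lt_of_lt_of_le he.2 h⟩

theorem Eq2.holds_congr {m : ℕ} {e : Eq2} (he : e.Below m) {y y' : ℕ → ℕ}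
    (h : ∀ i < m, y i = y' i) : e.Holds y ↔ e.Holds y' := by
  cases e with
  | add i j k =>
    obtain ⟨h1, h2, h3⟩ := he
    show y i + y j = y k ↔ y' i + y' j = y' k
    rw [h i h1, h j h2, h k h3]
  | sq i j =>
    obtain ⟨h1, h2⟩ := he
    show y j = y i * y i ↔ y' j = y' i * y' i
    rw [h i h1, h j h2]

/-- A block of equations which defines the fresh variables `N ≤ i < N'` as functions of the older
ones: `out` has the value `val y`. -/
structure Blk (N N' out : ℕ) (E : List Eq2) (val : (ℕ → ℕ) → ℕ) : Prop where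
  le : N ≤ N'
  out_lt : out < N'
  below : ∀ e ∈ E, e.Below N'
  sound : ∀ y : ℕ → ℕ, (∀ e ∈ E, e.Holds y) → y out = val y
  compl : ∀ y : ℕ → ℕ, ∃ y' : ℕ → ℕ, (∀ i < N, y' i = y i) ∧ ∀ e ∈ E, e.Holds y'
  zero : ∀ y : ℕ → ℕ, (∀ i < N, y i = 0) → (∀ e ∈ E, e.Holds y) → ∀ i < N', y i = 0

/-- composition of blocks -/
theorem blk_seq {N N1 N2 o1 o2 : ℕ} {E1 E2 : List Eq2} {v1 v2 : (ℕ → ℕ) → ℕ}
    (h1 : Blk N N1 o1 E1 v1) (h2 : Blk N1 N2 o2 E2 v2) : Blk N N2 o2 (E1 ++ E2) v2 where
  le := h1.le.trans h2.le
  out_lt := h2.out_lt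
  below e he := by
    rcases List.mem_append.1 he with h | h
    · exact (h1.below e h).mono h2.le
    · exact h2.below e h
  sound y hy := h2.sound y fun e he => hy e (List.mem_append_right _ he)
  compl y := by
    obtain ⟨y1, ha, hb⟩ := h1.compl y
    obtain ⟨y2, hc, hd⟩ := h2.compl y1
    refine ⟨y2, fun i hi => (hc i (lt_of_lt_of_le hi h1.le)).trans (ha i hi), ?_⟩
    intro e he
    rcases List.mem_append.1 he with h | h
    · exact (Eq2.holds_congr (h1.below e h) fun i hi => (hc i hi).symm).1 (hb e h)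
    · exact hd e h
  zero y hy hE := h2.zero y
    (h1.zero y hy fun e he => hE e (List.mem_append_left _ he))
    fun e he => hE e (List.mem_append_right _ he)

/-- the empty block -/
theorem blk_nil {N o : ℕ} (ho : o < N) : Blk N N o [] (fun y => y o) where
  le := le_rfl
  out_lt := ho
  below e he := absurd he List.not_mem_nil
  sound y _ := rfl
  compl y := ⟨y, fun _ _ => rfl, fun e he => absurd he List.not_mem_nil⟩
  zero y hy _ := hy

/-- one addition -/
theorem blk_add {N i j : ℕ} (hi : i < N) (hj : j < N) :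
    Blk N (N + 1) N [.add i j N] (fun y => y i + y j) where
  le := Nat.le_succ N
  out_lt := Nat.lt_succ_self N
  below e he := by
    rw [List.mem_singleton] at he
    subst he
    exact ⟨by omega, by omega, by omega⟩
  sound y hy := (hy _ (List.mem_singleton_self _)).symm
  compl y := by
    refine ⟨fun n => if n = N then y i + y j else y n, fun n hn => ?_, fun e he => ?_⟩
    · simp only [show n ≠ N by omega, if_false]
    · rw [List.mem_singleton] at he
      subst he
      show (if i = N then _ else y i) + (if j = N then _ else y j) = if N = N then _ else _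
      simp only [show i ≠ N by omega, show j ≠ N by omega, if_false, if_true]
  zero y hy hE n hn := by
    rcases Nat.lt_or_ge n N with h | h
    · exact hy n h
    · have : n = N := by omega
      subst this
      have := hE _ (List.mem_singleton_self _)
      have h' : y i + y j = y n := this
      rw [← h', hy i hi, hy j hj]

/-- one squaring -/
theorem blk_sq {N i : ℕ} (hi : i < N) :
    Blk N (N + 1) N [.sq i N] (fun y => y i * y i) where
  le := Nat.le_succ N
  out_lt := Nat.lt_succ_self N
  below e he := by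
    rw [List.mem_singleton] at he
    subst he
    exact ⟨by omega, by omega⟩
  sound y hy := hy _ (List.mem_singleton_self _)
  compl y := by
    refine ⟨fun n => if n = N then y i * y i else y n, fun n hn => ?_, fun e he => ?_⟩
    · simp only [show n ≠ N by omega, if_false]
    · rw [List.mem_singleton] at he
      subst he
      show (if N = N then _ else _) = (if i = N then _ else y i) * (if i = N then _ else y i)
      simp only [show i ≠ N by omega, if_false, if_true]
  zero y hy hE n hn := by
    rcases Nat.lt_or_ge n N with h | h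
    · exact hy n h
    · have : n = N := by omega
      subst this
      have h' : y n = y i * y i := hE _ (List.mem_singleton_self _)
      rw [h', hy i hi]

/-- one multiplication: `(x + y)^2 = x^2 + y^2 + 2 z` -/
theorem blk_mul {N i j : ℕ} (hi : i < N) (hj : j < N) :
    ∃ (N' : ℕ) (E : List Eq2) (o : ℕ), Blk N N' o E (fun y => y i * y j) := by
  refine ⟨N + 7, [.add i j N, .sq N (N + 1), .sq i (N + 2), .sq j (N + 3),
    .add (N + 2) (N + 3) (N + 4), .add (N + 5) (N + 5) (N + 6),
    .add (N + 4) (N + 6) (N + 1)], N + 5, ?_⟩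
  refine ⟨by omega, by omega, ?_, ?_, ?_, ?_⟩
  · intro e he
    simp only [List.mem_cons, List.not_mem_nil, or_false] at he
    rcases he with rfl | rfl | rfl | rfl | rfl | rfl | rfl
    · exact ⟨by omega, by omega, by omega⟩
    · exact ⟨by omega, by omega⟩
    · exact ⟨by omega, by omega⟩
    · exact ⟨by omega, by omega⟩
    · exact ⟨by omega, by omega, by omega⟩
    · exact ⟨by omega, by omega, by omega⟩
    · exact ⟨by omega, by omega, by omega⟩
  · intro y hy
    have h1 : y i + y j = y N := hy (.add i j N) (by simp)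
    have h2 : y (N + 1) = y N * y N := hy (.sq N (N + 1)) (by simp)
    have h3 : y (N + 2) = y i * y i := hy (.sq i (N + 2)) (by simp)
    have h4 : y (N + 3) = y j * y j := hy (.sq j (N + 3)) (by simp)
    have h5 : y (N + 2) + y (N + 3) = y (N + 4) := hy (.add (N + 2) (N + 3) (N + 4)) (by simp)
    have h6 : y (N + 5) + y (N + 5) = y (N + 6) := hy (.add (N + 5) (N + 5) (N + 6)) (by simp)
    have h7 : y (N + 4) + y (N + 6) = y (N + 1) := hy (.add (N + 4) (N + 6) (N + 1)) (by simp)
    show y (N + 5) = y i * y j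
    rw [h2, ← h1, ← h5, h3, h4, ← h6] at h7
    nlinarith
  · intro y
    let a := y i
    let b := y j
    refine ⟨fun n => if n = N then a + b else if n = N + 1 then (a + b) * (a + b) else
      if n = N + 2 then a * a else if n = N + 3 then b * b else if n = N + 4 then a * a + b * b else
      if n = N + 5 then a * b else if n = N + 6 then a * b + a * b else y n, ?_, ?_⟩
    · intro n hn
      simp only [show n ≠ N by omega, show n ≠ N + 1 by omega, show n ≠ N + 2 by omega,
        show n ≠ N + 3 by omega, show n ≠ N + 4 by omega, show n ≠ N + 5 by omega,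
        show n ≠ N + 6 by omega, if_false]
    · intro e he
      simp only [List.mem_cons, List.not_mem_nil, or_false] at he
      rcases he with rfl | rfl | rfl | rfl | rfl | rfl | rfl
      · simp only [Eq2.Holds, show i ≠ N by omega, show i ≠ N + 1 by omega,
          show i ≠ N + 2 by omega, show i ≠ N + 3 by omega, show i ≠ N + 4 by omega,
          show i ≠ N + 5 by omega, show i ≠ N + 6 by omega, show j ≠ N by omega,
          show j ≠ N + 1 by omega, show j ≠ N + 2 by omega, show j ≠ N + 3 by omega,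
          show j ≠ N + 4 by omega, show j ≠ N + 5 by omega, show j ≠ N + 6 by omega, if_false,
          if_true]
        rfl
      · simp [Eq2.Holds]
      · simp only [Eq2.Holds, show i ≠ N by omega, show i ≠ N + 1 by omega,
          show i ≠ N + 2 by omega, show i ≠ N + 3 by omega, show i ≠ N + 4 by omega,
          show i ≠ N + 5 by omega, show i ≠ N + 6 by omega, if_false]
        simp [a]
      · simp only [Eq2.Holds, show j ≠ N by omega,
          show j ≠ N + 1 by omega, show j ≠ N + 2 by omega, show j ≠ N + 3 by omega,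
          show j ≠ N + 4 by omega, show j ≠ N + 5 by omega, show j ≠ N + 6 by omega, if_false]
        simp [b]
      · simp [Eq2.Holds]
      · simp [Eq2.Holds]
      · simp [Eq2.Holds]; ring
  · intro y hy hE n hn
    have h1 : y i + y j = y N := hE (.add i j N) (by simp)
    have h2 : y (N + 1) = y N * y N := hE (.sq N (N + 1)) (by simp)
    have h3 : y (N + 2) = y i * y i := hE (.sq i (N + 2)) (by simp)
    have h4 : y (N + 3) = y j * y j := hE (.sq j (N + 3)) (by simp)
    have h5 : y (N + 2) + y (N + 3) = y (N + 4) := hE (.add (N + 2) (N + 3) (N + 4)) (by simp)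
    have h6 : y (N + 5) + y (N + 5) = y (N + 6) := hE (.add (N + 5) (N + 5) (N + 6)) (by simp)
    have h7 : y (N + 4) + y (N + 6) = y (N + 1) := hE (.add (N + 4) (N + 6) (N + 1)) (by simp)
    rw [hy i hi, hy j hj] at h1
    have g0 : y N = 0 := h1.symm
    rw [g0] at h2
    rw [hy i hi] at h3
    rw [hy j hj] at h4
    rcases Nat.lt_or_ge n N with h | h
    · exact hy n h
    · have : n = N ∨ n = N + 1 ∨ n = N + 2 ∨ n = N + 3 ∨ n = N + 4 ∨ n = N + 5 ∨ n = N + 6 := by
        omega
      rcases this with rfl | rfl | rfl | rfl | rfl | rfl | rfl <;> omega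

/-- a constant: `n * y 0` -/
theorem blk_const {N : ℕ} (hN : 0 < N) (n : ℕ) :
    ∃ (N' : ℕ) (E : List Eq2) (o : ℕ), Blk N N' o E (fun y => n * y 0) := by
  induction n with
  | zero =>
    refine ⟨N + 1, [.add N N N], N, by omega, by omega, ?_, ?_, ?_, ?_⟩
    · intro e he
      rw [List.mem_singleton] at he
      subst he
      exact ⟨by omega, by omega, by omega⟩
    · intro y hy
      have h : y N + y N = y N := hy _ (List.mem_singleton_self _)
      show y N = 0 * y 0
      omega
    · intro y
      refine ⟨fun n => if n = N then 0 else y n, fun n hn => ?_, fun e he => ?_⟩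
      · simp only [show n ≠ N by omega, if_false]
      · rw [List.mem_singleton] at he
        subst he
        show (if N = N then 0 else _) + (if N = N then 0 else _) = if N = N then 0 else _
        simp
    · intro y hy hE n hn
      rcases Nat.lt_or_ge n N with h | h
      · exact hy n h
      · have : n = N := by omega
        subst this
        have h' : y n + y n = y n := hE _ (List.mem_singleton_self _)
        omega
  | succ n ih =>
    obtain ⟨N1, E1, o1, h1⟩ := ih
    have hlt : 0 < N1 := lt_of_lt_of_le hN h1.le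
    have h2 := blk_seq h1 (blk_add (N := N1) (i := o1) (j := 0) h1.out_lt hlt)
    refine ⟨N1 + 1, E1 ++ [.add o1 0 N1], N1, h2.le, h2.out_lt, h2.below, ?_, h2.compl, h2.zero⟩
    intro y hy
    rw [h2.sound y hy, h1.sound y fun e he => hy e (List.mem_append_left _ he)]
    show n * y 0 + y 0 = (n + 1) * y 0
    ring

/-- compilation of an expression -/
theorem blk_ne (P : NE ℕ) : ∀ {N : ℕ}, 0 < N → (∀ i ∈ P.vars, i < N) →
    ∃ (N' : ℕ) (E : List Eq2) (o : ℕ), Blk N N' o E (fun y => P.evalE (y 0) y) := by
  induction P with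
  | var i => intro N _ h; exact ⟨N, [], i, blk_nil (h i (by simp [NE.vars]))⟩
  | const n => intro N hN _; exact blk_const hN n
  | add P Q ihP ihQ =>
    intro N hN h
    obtain ⟨N1, E1, o1, h1⟩ := ihP hN fun i hi => h i (by simp [NE.vars, hi])
    obtain ⟨N2, E2, o2, h2⟩ := ihQ (lt_of_lt_of_le hN h1.le)
      fun i hi => lt_of_lt_of_le (h i (by simp [NE.vars, hi])) h1.le
    have h3 := blk_seq (blk_seq h1 h2)
      (blk_add (N := N2) (i := o1) (j := o2) (lt_of_lt_of_le h1.out_lt h2.le) h2.out_lt)
    refine ⟨_, _, _, h3.le, h3.out_lt, h3.below, ?_, h3.compl, h3.zero⟩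
    intro y hy
    rw [h3.sound y hy]
    show y o1 + y o2 = P.evalE (y 0) y + Q.evalE (y 0) y
    rw [h1.sound y fun e he => hy e (by simp [he]), h2.sound y fun e he => hy e (by simp [he])]
  | mul P Q ihP ihQ =>
    intro N hN h
    obtain ⟨N1, E1, o1, h1⟩ := ihP hN fun i hi => h i (by simp [NE.vars, hi])
    obtain ⟨N2, E2, o2, h2⟩ := ihQ (lt_of_lt_of_le hN h1.le)
      fun i hi => lt_of_lt_of_le (h i (by simp [NE.vars, hi])) h1.le
    obtain ⟨N3, E3, o3, h3⟩ :=
      blk_mul (N := N2) (i := o1) (j := o2) (lt_of_lt_of_le h1.out_lt h2.le) h2.out_lt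
    have h4 := blk_seq (blk_seq h1 h2) h3
    refine ⟨_, _, _, h4.le, h4.out_lt, h4.below, ?_, h4.compl, h4.zero⟩
    intro y hy
    rw [h4.sound y hy]
    show y o1 * y o2 = P.evalE (y 0) y * Q.evalE (y 0) y
    rw [h1.sound y fun e he => hy e (by simp [he]), h2.sound y fun e he => hy e (by simp [he])]

/-- the equations `y_i = y_0 * y_i` for `i` in a list -/
theorem blk_switch (l : List ℕ) : ∀ {N : ℕ}, 0 < N → (∀ i ∈ l, i < N) →
    ∃ (N' : ℕ) (E : List Eq2), N ≤ N' ∧ (∀ e ∈ E, e.Below N') ∧
      (∀ y : ℕ → ℕ, (∀ e ∈ E, e.Holds y) → ∀ i ∈ l, y i = y 0 * y i) ∧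
      (∀ y : ℕ → ℕ, y 0 = 1 → ∃ y' : ℕ → ℕ, (∀ i < N, y' i = y i) ∧ ∀ e ∈ E, e.Holds y') ∧
      (∀ y : ℕ → ℕ, (∀ i < N, y i = 0) → (∀ e ∈ E, e.Holds y) → ∀ i < N', y i = 0) := by
  induction l with
  | nil =>
    intro N _ _
    exact ⟨N, [], le_rfl, fun e he => absurd he List.not_mem_nil,
      fun y _ i hi => absurd hi List.not_mem_nil,
      fun y _ => ⟨y, fun _ _ => rfl, fun e he => absurd he List.not_mem_nil⟩, fun y hy _ => hy⟩
  | cons i l ih =>
    intro N hN h
    have hi : i < N := h i (by simp)
    obtain ⟨N1, E1, o1, h1⟩ := blk_mul (N := N) (i := 0) (j := i) hN hi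
    -- the zero variable `N1`, and the equation `y i + 0 = y o1`
    obtain ⟨N2, E2, h21, h22, h23, h24, h25⟩ := ih (N := N1 + 1) (Nat.succ_pos _)
      fun j hj => by have := h j (by simp [hj]); have := h1.le; omega
    refine ⟨N2, E1 ++ ([.add N1 N1 N1, .add i N1 o1] ++ E2), ?_, ?_, ?_, ?_, ?_⟩
    · have := h1.le; omega
    · intro e he
      have hle := h1.le
      have hol := h1.out_lt
      simp only [List.mem_append, List.mem_cons, List.not_mem_nil, or_false] at he
      rcases he with he | (rfl | rfl) | he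
      · exact (h1.below e he).mono (by omega)
      · exact ⟨by omega, by omega, by omega⟩
      · exact ⟨by omega, by omega, by omega⟩
      · exact h22 e he
    · intro y hy j hj
      have hz : y N1 + y N1 = y N1 := hy (.add N1 N1 N1) (by simp)
      have he : y i + y N1 = y o1 := hy (.add i N1 o1) (by simp)
      have hs := h1.sound y fun e he => hy e (by simp [he])
      rcases List.mem_cons.1 hj with rfl | hj
      · have hs' : y o1 = y 0 * y j := hs
        omega
      · exact h23 y (fun e he => hy e (by simp [he])) j hj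
    · intro y hy0
      obtain ⟨y1, ha, hb⟩ := h1.compl y
      let y2 : ℕ → ℕ := fun n => if n = N1 then 0 else y1 n
      have hol := h1.out_lt
      have hle := h1.le
      have hy20 : y2 0 = 1 := by
        simp only [y2, show (0 : ℕ) ≠ N1 by omega, if_false]
        rw [ha 0 hN, hy0]
      obtain ⟨y3, hc, hd⟩ := h24 y2 hy20
      have hlt : ∀ n < N1, y3 n = y1 n := by
        intro n hn
        rw [hc n (by omega)]
        simp only [y2, show n ≠ N1 by omega, if_false]
      have hz : y3 N1 = 0 := by rw [hc N1 (by omega)]; simp [y2]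
      refine ⟨y3, fun n hn => (hlt n (by omega)).trans (ha n hn), ?_⟩
      intro e he
      simp only [List.mem_append, List.mem_cons, List.not_mem_nil, or_false] at he
      rcases he with he | (rfl | rfl) | he
      · exact (Eq2.holds_congr (h1.below e he) fun n hn => (hlt n hn).symm).1 (hb e he)
      · show y3 N1 + y3 N1 = y3 N1
        rw [hz]
      · show y3 i + y3 N1 = y3 o1
        rw [hz, hlt i (by omega), hlt o1 hol, h1.sound y1 hb]
        show y1 i + 0 = y1 0 * y1 i
        rw [ha 0 hN, hy0, one_mul, add_zero]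
      · exact hd e he
    · intro y hy hE
      have hz1 := h1.zero y hy fun e he => hE e (by simp [he])
      have hz : y N1 + y N1 = y N1 := hE (.add N1 N1 N1) (by simp)
      refine h25 y (fun n hn => ?_) fun e he => hE e (by simp [he])
      rcases Nat.lt_or_ge n N1 with h | h
      · exact hz1 n h
      · have : n = N1 := by omega
        subst this; omega

/-- **Normal form with a switch.** -/
theorem mrdp_switch {p : ℕ → Prop} (hp : REPred p) :
    ∃ (m : ℕ) (E : List Eq2), 2 ≤ m ∧ (∀ e ∈ E, e.Below m) ∧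
      (∀ y : ℕ → ℕ, (∀ e ∈ E, e.Holds y) → y 0 = 0 ∨ y 0 = 1) ∧
      (∀ (a : ℕ) (y : ℕ → ℕ), (∀ e ∈ E, e.Holds y) → y 1 = a * y 0 → y 0 = 0 →
        ∀ i < m, y i = 0) ∧
      ∀ a, p a ↔ ∃ y : ℕ → ℕ, (∀ e ∈ E, e.Holds y) ∧ y 0 = 1 ∧ y 1 = a * y 0 := by
  obtain ⟨P, Q, hP, hQ, hPQ⟩ := mrdp_ne hp
  -- a bound for the variables
  obtain ⟨N, hN2, hNP, hNQ⟩ : ∃ N, 2 ≤ N ∧ (∀ i ∈ P.vars, i < N) ∧ (∀ i ∈ Q.vars, i < N) := by
    refine ⟨2 + (P.vars.sum + Q.vars.sum), by omega, fun i hi => ?_, fun i hi => ?_⟩
    · have := List.single_le_sum (fun _ _ => Nat.zero_le _) i hi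
      omega
    · have := List.single_le_sum (fun _ _ => Nat.zero_le _) i hi
      omega
  obtain ⟨N1, E1, s1, s2, s3, s4, s5⟩ := blk_switch (List.range N) (N := N) (by omega)
    fun i hi => List.mem_range.1 hi
  obtain ⟨N2, E2, o1, h1⟩ := blk_ne P (N := N1) (by omega)
    fun i hi => lt_of_lt_of_le (hNP i hi) s1
  obtain ⟨N3, E3, o2, h2⟩ := blk_ne Q (N := N2) (by have := h1.le; omega)
    fun i hi => lt_of_lt_of_le (hNQ i hi) (s1.trans h1.le)
  have hle1 := h1.le
  have hle2 := h2.le
  have hol1 := h1.out_lt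
  have hol2 := h2.out_lt
  refine ⟨N3 + 1, [.sq 0 0] ++ (E1 ++ (E2 ++ (E3 ++ [.add N3 N3 N3, .add o1 N3 o2]))),
    by omega, ?_, ?_, ?_, ?_⟩
  · intro e he
    simp only [List.mem_append, List.mem_cons, List.not_mem_nil, or_false] at he
    rcases he with rfl | he | he | he | rfl | rfl
    · exact ⟨by omega, by omega⟩
    · exact (s2 e he).mono (by omega)
    · exact (h1.below e he).mono (by omega)
    · exact (h2.below e he).mono (by omega)
    · exact ⟨by omega, by omega, by omega⟩
    · exact ⟨by omega, by omega, by omega⟩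
  · intro y hy
    have h : y 0 = y 0 * y 0 := hy (.sq 0 0) (by simp)
    rcases Nat.eq_zero_or_pos (y 0) with h0 | h0
    · exact Or.inl h0
    · right
      have h3 : y 0 * 1 = y 0 * y 0 := by rw [mul_one]; exact h
      exact (Nat.eq_of_mul_eq_mul_left h0 h3).symm
  · intro a y hy hya hy0
    have hsw := s3 y fun e he => hy e (by simp [he])
    have hz0 : ∀ i < N, y i = 0 := by
      intro i hi
      have := hsw i (List.mem_range.2 hi)
      rw [hy0, zero_mul] at this
      exact this
    have hz1 := s5 y hz0 fun e he => hy e (by simp [he])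
    have hz2 := h1.zero y hz1 fun e he => hy e (by simp [he])
    have hz3 := h2.zero y hz2 fun e he => hy e (by simp [he])
    intro i hi
    rcases Nat.lt_or_ge i N3 with h | h
    · exact hz3 i h
    · have : i = N3 := by omega
      subst this
      have h' : y i + y i = y i := hy (.add i i i) (by simp)
      omega
  · intro a
    constructor
    · intro hpa
      obtain ⟨y0, hya, hyPQ⟩ := (hPQ a).1 hpa
      let y1 : ℕ → ℕ := fun n => if n = 0 then 1 else y0 n
      have hy10 : y1 0 = 1 := by simp [y1]
      obtain ⟨y2, ha2, hb2⟩ := s4 y1 hy10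
      obtain ⟨y3, ha3, hb3⟩ := h1.compl y2
      obtain ⟨y4, ha4, hb4⟩ := h2.compl y3
      let y5 : ℕ → ℕ := fun n => if n = N3 then 0 else y4 n
      have e54 : ∀ n < N3, y5 n = y4 n := by
        intro n hn; simp only [y5, show n ≠ N3 by omega, if_false]
      have e53 : ∀ n < N2, y5 n = y3 n := fun n hn => (e54 n (by omega)).trans (ha4 n hn)
      have e52 : ∀ n < N1, y5 n = y2 n := fun n hn => (e53 n (by omega)).trans (ha3 n hn)
      have e51 : ∀ n < N, y5 n = y1 n := fun n hn => (e52 n (by omega)).trans (ha2 n hn)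
      have hz : y5 N3 = 0 := by simp [y5]
      have hy50 : y5 0 = 1 := by rw [e51 0 (by omega), hy10]
      have hE2 : ∀ e ∈ E2, e.Holds y5 := fun e he =>
        (Eq2.holds_congr (h1.below e he) fun n hn => (e53 n hn).symm).1 (hb3 e he)
      have hE3 : ∀ e ∈ E3, e.Holds y5 := fun e he =>
        (Eq2.holds_congr (h2.below e he) fun n hn => (e54 n hn).symm).1 (hb4 e he)
      have hval : ∀ R : NE ℕ, (∀ i ∈ R.vars, 1 ≤ i) → (∀ i ∈ R.vars, i < N) →
          R.evalE (y5 0) y5 = R.eval y0 := by
        intro R hR1 hR2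
        rw [hy50]
        apply NE.evalE_congr
        intro i hi
        rw [e51 i (hR2 i hi)]
        have := hR1 i hi
        simp only [y1, show i ≠ 0 by omega, if_false]
      refine ⟨y5, ?_, hy50, ?_⟩
      · intro e he
        simp only [List.mem_append, List.mem_cons, List.not_mem_nil, or_false] at he
        rcases he with rfl | he | he | he | rfl | rfl
        · show y5 0 = y5 0 * y5 0
          rw [hy50]
        · exact (Eq2.holds_congr (s2 e he) fun n hn => (e52 n hn).symm).1 (hb2 e he)
        · exact hE2 e he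
        · exact hE3 e he
        · show y5 N3 + y5 N3 = y5 N3
          rw [hz]
        · show y5 o1 + y5 N3 = y5 o2
          rw [hz, add_zero, h1.sound y5 hE2, h2.sound y5 hE3]
          show P.evalE (y5 0) y5 = Q.evalE (y5 0) y5
          rw [hval P hP hNP, hval Q hQ hNQ, hyPQ]
      · rw [hy50, mul_one, e51 1 (by omega)]
        simp only [y1, show (1 : ℕ) ≠ 0 by omega, if_false]
        exact hya
    · rintro ⟨y, hy, hy0, hya⟩
      rw [hPQ a]
      refine ⟨y, by rw [hya, hy0, mul_one], ?_⟩
      have hE2 := h1.sound y fun e he => hy e (by simp [he])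
      have hE3 := h2.sound y fun e he => hy e (by simp [he])
      have hz : y N3 + y N3 = y N3 := hy (.add N3 N3 N3) (by simp)
      have he : y o1 + y N3 = y o2 := hy (.add o1 N3 o2) (by simp)
      have hE2' : y o1 = P.evalE (y 0) y := hE2
      have hE3' : y o2 = Q.evalE (y 0) y := hE3
      rw [hy0] at hE2' hE3'
      show P.evalE 1 y = Q.evalE 1 y
      omega

end Pool.Agent.Helper84.MRDP
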