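import Pool.Agent.Helper84.MRDP.BallDioph

/-!
# MRDP, part 4: graphs of partial recursive functions are Diophantine
-/

set_option autoImplicit false

namespace Pool.Agent.Helper84.MRDP

open Nat Dioph

section fns

variable {α : Type} {f g : (α → ℕ) → ℕ}

theorem pair_dioph (df : DiophFn f) (dg : DiophFn g) : DiophFn fun v => Nat.pair (f v) (g v) := by
  have df' : DiophFn fun v : Option α → ℕ => f (v ∘ some) := reindex_diophFn some df
  have dg' : DiophFn fun v : Option α → ℕ => g (v ∘ some) := reindex_diophFn some dg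
  have dn : DiophFn fun v : Option α → ℕ => v none := proj_dioph none
  have h := Dioph.union
    (Dioph.inter (lt_dioph df' dg') (eq_dioph (add_dioph (mul_dioph dg' dg') df') dn))
    (Dioph.inter (le_dioph dg' df')
      (eq_dioph (add_dioph (add_dioph (mul_dioph df' df') df') dg') dn))
  refine Dioph.ext h fun v => ?_
  show ((f (v ∘ some) < g (v ∘ some) ∧ g (v ∘ some) * g (v ∘ some) + f (v ∘ some) = v none) ∨
    (g (v ∘ some) ≤ f (v ∘ some) ∧
      f (v ∘ some) * f (v ∘ some) + f (v ∘ some) + g (v ∘ some) = v none)) ↔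
    Nat.pair (f (v ∘ some)) (g (v ∘ some)) = v none
  unfold Nat.pair
  split_ifs with hlt
  · constructor
    · rintro (⟨_, h⟩ | ⟨h, _⟩)
      · exact h
      · omega
    · intro h; exact Or.inl ⟨hlt, h⟩
  · constructor
    · rintro (⟨h, _⟩ | ⟨_, h⟩)
      · omega
      · exact h
    · intro h; exact Or.inr ⟨by omega, h⟩

theorem fst_dioph (df : DiophFn f) : DiophFn fun v => (Nat.unpair (f v)).1 := by
  have df' : DiophFn fun v : Option (Option α) → ℕ => f (v ∘ some ∘ some) :=
    reindex_diophFn (some ∘ some) df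
  have h := ex1_dioph (eq_dioph (pair_dioph
    (proj_dioph (some none : Option (Option α))) (proj_dioph none)) df')
  refine Dioph.ext h fun v => ?_
  show (∃ x, Nat.pair (v none) x = f (v ∘ some)) ↔ (Nat.unpair (f (v ∘ some))).1 = v none
  constructor
  · rintro ⟨x, hx⟩; rw [← hx, Nat.unpair_pair]
  · intro h; exact ⟨(Nat.unpair (f (v ∘ some))).2, by rw [← h, Nat.pair_unpair]⟩

theorem snd_dioph (df : DiophFn f) : DiophFn fun v => (Nat.unpair (f v)).2 := by
  have df' : DiophFn fun v : Option (Option α) → ℕ => f (v ∘ some ∘ some) :=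
    reindex_diophFn (some ∘ some) df
  have h := ex1_dioph (eq_dioph (pair_dioph
    (proj_dioph (none : Option (Option α))) (proj_dioph (some none))) df')
  refine Dioph.ext h fun v => ?_
  show (∃ x, Nat.pair x (v none) = f (v ∘ some)) ↔ (Nat.unpair (f (v ∘ some))).2 = v none
  constructor
  · rintro ⟨x, hx⟩; rw [← hx, Nat.unpair_pair]
  · intro h; exact ⟨(Nat.unpair (f (v ∘ some))).1, by rw [← h, Nat.pair_unpair]⟩

theorem beta_dioph (df : DiophFn f) (dg : DiophFn g) : DiophFn fun v => Nat.beta (f v) (g v) :=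
  mod_dioph (fst_dioph df)
    (add_dioph (mul_dioph (add_dioph dg (const_dioph 1)) (snd_dioph df)) (const_dioph 1))

end fns

/-- The graph of `f` is Diophantine, uniform form. -/
def GD (f : ℕ →. ℕ) : Prop :=
  ∀ (α : Type) (g h : (α → ℕ) → ℕ), DiophFn g → DiophFn h → Dioph {v | h v ∈ f (g v)}

theorem rec_iff (f g : ℕ →. ℕ) (a m y : ℕ) :
    y ∈ (Nat.rec (f a) (fun k IH => IH.bind fun i => g (Nat.pair a (Nat.pair k i))) m : Part ℕ) ↔
      ∃ c, Nat.beta c 0 ∈ f a ∧ (∀ k < m, Nat.beta c (k + 1) ∈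
        g (Nat.pair a (Nat.pair k (Nat.beta c k)))) ∧ Nat.beta c m = y := by
  have h1 : ∀ m y, y ∈ (Nat.rec (f a) (fun k IH => IH.bind fun i =>
      g (Nat.pair a (Nat.pair k i))) m : Part ℕ) ↔
      ∃ s : ℕ → ℕ, s 0 ∈ f a ∧ (∀ k < m, s (k + 1) ∈ g (Nat.pair a (Nat.pair k (s k)))) ∧
        s m = y := by
    intro m
    induction m with
    | zero =>
      intro y
      constructor
      · intro h; exact ⟨fun _ => y, h, fun k hk => absurd hk (Nat.not_lt_zero _), rfl⟩
      · rintro ⟨s, h0, -, h⟩; rw [← h]; exact h0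
    | succ m ih =>
      intro y
      constructor
      · intro h
        obtain ⟨i, hi, hy⟩ := Part.mem_bind_iff.1 h
        obtain ⟨s, h0, hs, hm⟩ := (ih i).1 hi
        refine ⟨fun k => if k ≤ m then s k else y, ?_, ?_, ?_⟩
        · simpa using h0
        · intro k hk
          rcases Nat.lt_or_ge k m with hkm | hkm
          · have e1 : k + 1 ≤ m := hkm
            have e2 : k ≤ m := hkm.le
            simp only [e1, e2, if_true]
            exact hs k hkm
          · have : k = m := by omega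
            subst this
            have e1 : ¬ (k + 1 ≤ k) := by omega
            simp only [e1, if_false, le_refl, if_true]
            rw [hm]; exact hy
        · have e1 : ¬ (m + 1 ≤ m) := by omega
          simp only [e1, if_false]
      · rintro ⟨s, h0, hs, hy⟩
        apply Part.mem_bind_iff.2
        refine ⟨s m, (ih (s m)).2 ⟨s, h0, fun k hk => hs k (by omega), rfl⟩, ?_⟩
        rw [← hy]
        exact hs m (by omega)
  rw [h1]
  constructor
  · rintro ⟨s, h0, hs, hy⟩
    let l : List ℕ := (List.range (m + 1)).map s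
    have hl : l.length = m + 1 := by simp [l]
    have hb : ∀ k ≤ m, Nat.beta (Nat.unbeta l) k = s k := by
      intro k hk
      have h := Nat.beta_unbeta_coe l ⟨k, by omega⟩
      rw [show ((⟨k, by omega⟩ : Fin l.length) : ℕ) = k from rfl] at h
      rw [h]
      simp [l]
    refine ⟨Nat.unbeta l, ?_, ?_, ?_⟩
    · rw [hb 0 (by omega)]; exact h0
    · intro k hk
      rw [hb (k + 1) (by omega), hb k (by omega)]
      exact hs k hk
    · rw [hb m le_rfl]; exact hy
  · rintro ⟨c, h0, hs, hy⟩
    exact ⟨fun k => Nat.beta c k, h0, hs, hy⟩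

theorem gd_of_partrec {f : ℕ →. ℕ} (hf : Nat.Partrec f) : GD f := by
  induction hf with
  | zero =>
    intro α g h dg dh
    refine Dioph.ext (eq_dioph dh (const_dioph 0)) fun v => ?_
    show h v = 0 ↔ h v ∈ (Part.some 0 : Part ℕ)
    rw [Part.mem_some_iff]
  | succ =>
    intro α g h dg dh
    refine Dioph.ext (eq_dioph dh (add_dioph dg (const_dioph 1))) fun v => ?_
    show h v = g v + 1 ↔ h v ∈ (Part.some (Nat.succ (g v)) : Part ℕ)
    rw [Part.mem_some_iff]
  | left =>
    intro α g h dg dh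
    refine Dioph.ext (eq_dioph dh (fst_dioph dg)) fun v => ?_
    show h v = (Nat.unpair (g v)).1 ↔ h v ∈ (Part.some (Nat.unpair (g v)).1 : Part ℕ)
    rw [Part.mem_some_iff]
  | right =>
    intro α g h dg dh
    refine Dioph.ext (eq_dioph dh (snd_dioph dg)) fun v => ?_
    show h v = (Nat.unpair (g v)).2 ↔ h v ∈ (Part.some (Nat.unpair (g v)).2 : Part ℕ)
    rw [Part.mem_some_iff]
  | @pair f1 f2 _ _ ih1 ih2 =>
    intro α g h dg dh
    refine Dioph.ext (Dioph.inter (ih1 α g _ dg (fst_dioph dh)) (ih2 α g _ dg (snd_dioph dh)))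
      fun v => ?_
    show ((Nat.unpair (h v)).1 ∈ f1 (g v) ∧ (Nat.unpair (h v)).2 ∈ f2 (g v)) ↔
      h v ∈ (Nat.pair <$> f1 (g v) <*> f2 (g v) : Part ℕ)
    constructor
    · rintro ⟨h1, h2⟩
      have : Nat.pair (Nat.unpair (h v)).1 (Nat.unpair (h v)).2 ∈
          (Nat.pair <$> f1 (g v) <*> f2 (g v) : Part ℕ) := by
        simp only [seq_eq_bind_map, Part.map_eq_map, Part.bind_eq_bind, Part.mem_bind_iff,
          Part.mem_map_iff]
        exact ⟨_, ⟨_, h1, rfl⟩, _, h2, rfl⟩
      rwa [Nat.pair_unpair] at this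
    · intro h1
      simp only [seq_eq_bind_map, Part.map_eq_map, Part.bind_eq_bind, Part.mem_bind_iff,
        Part.mem_map_iff] at h1
      obtain ⟨_, ⟨x, hx, rfl⟩, y, hy, hxy⟩ := h1
      rw [← hxy, Nat.unpair_pair]
      exact ⟨hx, hy⟩
  | @comp f1 f2 _ _ ih1 ih2 =>
    intro α g h dg dh
    have dg' : DiophFn fun v : Option α → ℕ => g (v ∘ some) := reindex_diophFn some dg
    have dh' : DiophFn fun v : Option α → ℕ => h (v ∘ some) := reindex_diophFn some dh
    refine Dioph.ext (ex1_dioph (Dioph.inter (ih2 _ _ _ dg' (proj_dioph none))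
      (ih1 _ _ _ (proj_dioph none) dh'))) fun v => ?_
    have key : (∃ x, x ∈ (f2 (g v) : Part ℕ) ∧ h v ∈ (f1 x : Part ℕ)) ↔
        h v ∈ (Part.bind (f2 (g v)) f1 : Part ℕ) := Part.mem_bind_iff.symm
    exact key
  | @prec f1 f2 _ _ ih1 ih2 =>
    intro α g h dg dh
    -- variables: `none` = code `c`
    have dg' : DiophFn fun v : Option α → ℕ => g (v ∘ some) := reindex_diophFn some dg
    have dh' : DiophFn fun v : Option α → ℕ => h (v ∘ some) := reindex_diophFn some dh
    have dc : DiophFn fun v : Option α → ℕ => v none := proj_dioph none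
    have da := fst_dioph dg'
    have dm := snd_dioph dg'
    have D1 := ih1 _ _ _ da (beta_dioph dc (const_dioph 0))
    have D3 := eq_dioph (beta_dioph dc dm) dh'
    -- the bounded quantifier, variables: `none` = `k`, `some none` = `c`
    have da'' : DiophFn fun v : Option (Option α) → ℕ =>
        (Nat.unpair (g (v ∘ some ∘ some))).1 :=
      fst_dioph (reindex_diophFn (some ∘ some) dg)
    have dk : DiophFn fun v : Option (Option α) → ℕ => v none := proj_dioph none
    have dc'' : DiophFn fun v : Option (Option α) → ℕ => v (some none) := proj_dioph (some none)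
    have D2 := ball_dioph' dm (ih2 _ _ _
      (pair_dioph da'' (pair_dioph dk (beta_dioph dc'' dk)))
      (beta_dioph dc'' (add_dioph dk (const_dioph 1))))
    refine Dioph.ext (ex1_dioph (Dioph.inter D1 (Dioph.inter D2 D3))) fun v => ?_
    have key := rec_iff f1 f2 (Nat.unpair (g v)).1 (Nat.unpair (g v)).2 (h v)
    show (∃ c, Nat.beta c 0 ∈ f1 (Nat.unpair (g v)).1 ∧
      (∀ k < (Nat.unpair (g v)).2, Nat.beta c (k + 1) ∈
        f2 (Nat.pair (Nat.unpair (g v)).1 (Nat.pair k (Nat.beta c k)))) ∧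
      Nat.beta c (Nat.unpair (g v)).2 = h v) ↔ _
    rw [← key]
    rfl
  | @rfind f1 _ ih1 =>
    intro α g h dg dh
    have D1 := ih1 _ _ _ (pair_dioph dg dh) (const_dioph (α := α) 0)
    -- variables: `none` = value, `some none` = `k`
    have dg2 : DiophFn fun v : Option (Option α) → ℕ => g (v ∘ some ∘ some) :=
      reindex_diophFn (some ∘ some) dg
    have dw : DiophFn fun v : Option (Option α) → ℕ => v none := proj_dioph none
    have dk : DiophFn fun v : Option (Option α) → ℕ => v (some none) := proj_dioph (some none)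
    have D2 := ball_dioph' dh (ex1_dioph (Dioph.inter (ih1 _ _ _ (pair_dioph dg2 dk) dw)
      (ne_dioph dw (const_dioph 0))))
    refine Dioph.ext (Dioph.inter D1 D2) fun v => ?_
    refine Iff.trans (b := (0 ∈ (f1 (Nat.pair (g v) (h v)) : Part ℕ) ∧
      ∀ k < h v, ∃ x, x ∈ (f1 (Nat.pair (g v) k) : Part ℕ) ∧ x ≠ 0)) Iff.rfl ?_
    refine Iff.trans ?_ Nat.mem_rfind.symm
    constructor
    · rintro ⟨h1, h2⟩
      refine ⟨?_, fun {k} hk => ?_⟩
      · exact (Part.mem_map_iff _).2 ⟨0, h1, by simp⟩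
      · obtain ⟨x, hx, hx0⟩ := h2 k hk
        exact (Part.mem_map_iff _).2 ⟨x, hx, by simp [hx0]⟩
    · rintro ⟨h1, h2⟩
      refine ⟨?_, fun k hk => ?_⟩
      · obtain ⟨x, hx, hx0⟩ := (Part.mem_map_iff _).1 h1
        have : x = 0 := by simpa using hx0
        rw [← this]; exact hx
      · obtain ⟨x, hx, hx0⟩ := (Part.mem_map_iff _).1 (h2 hk)
        exact ⟨x, hx, by simpa using hx0⟩

/-- **MRDP theorem**: recursively enumerable sets of natural numbers are Diophantine. -/
theorem mrdp {p : ℕ → Prop} (hp : REPred p) {α : Type} {g : (α → ℕ) → ℕ} (dg : DiophFn g) :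
    Dioph {v : α → ℕ | p (g v)} := by
  have h1 : Nat.Partrec fun n => Part.bind (Encodable.decode (α := ℕ) n : Option ℕ) fun a =>
      (Part.assert (p a) fun _ => Part.some ()).map Encodable.encode := hp
  refine Dioph.ext (gd_of_partrec h1 α g _ dg (const_dioph 0)) fun v => ?_
  show (0 ∈ Part.bind (Encodable.decode (α := ℕ) (g v) : Option ℕ) fun a =>
      (Part.assert (p a) fun _ => Part.some ()).map Encodable.encode) ↔ p (g v)
  rw [Part.mem_bind_iff]
  constructor
  · rintro ⟨a, ha, h0⟩
    have ha' : a = g v := by simpa using ha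
    subst ha'
    obtain ⟨x, hx, -⟩ := (Part.mem_map_iff _).1 h0
    obtain ⟨hpa, -⟩ := Part.mem_assert_iff.1 hx
    exact hpa
  · intro h
    refine ⟨g v, by simp, (Part.mem_map_iff _).2 ⟨(), Part.mem_assert_iff.2 ⟨h, Part.mem_some _⟩,
      rfl⟩⟩

end Pool.Agent.Helper84.MRDP
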